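import Pool.Agent.Q106.UN.Uni
import Pool.Agent.Q106.ST.IncP

/-!
# All windows `[x, x + H)` with `x^δ ≤ H ≤ x`
-/

set_option autoImplicit false

namespace Pool.Agent.Q106.UN

open Finset MeasureTheory ProbabilityTheory Filter
open scoped Topology
open Pool.Agent.Q120.GM (IsModel level)
open Pool.Agent.Q106.UV (fN fex fser fw ft)
open Pool.Agent.Q106.FL (Energy Near pt FLaw)
open Pool.Agent.Q106.ST (Sys sh cD cP Wp)

/-- The logarithmic factor. -/
noncomputable def lam (x H : ℕ) : ℝ := Real.log ((x : ℝ) / H) + Real.log (Real.log x)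

variable {σ : Type*} {Q r : ℕ} {S : Fin r → Finset σ} {f : σ → ℕ → ℕ} {m₁ : ℕ}

/-- The weights are nearly constant. -/
theorem fw_flat (h : Sys Q S f m₁) {η : ℝ} (hη : 0 < η) : ∃ Y : ℕ, m₁ + 3 ≤ Y ∧ ∀ a ≥ Y, ∀ b, a ≤ b → b ≤ 4 * a →
    ∀ i, fw (S i) f a ≤ (1 + η) * fw (S i) f b := by
  have h1 : ∀ i, ∀ᶠ a : ℕ in atTop, fw (S i) f a / fw (S i) f (4 * a) < 1 + η := by
    intro i
    have h2 := h.flat (a := fun n => n) (b := fun n => 4 * n) tendsto_id
      (Eventually.of_forall (fun n => by omega)) ⟨4, Eventually.of_forall (fun n => le_rfl)⟩ i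
    exact h2.eventually (gt_mem_nhds (by linarith))
  obtain ⟨Y, hY⟩ := eventually_atTop.1 ((eventually_all.2 h1).and (eventually_ge_atTop (m₁ + 3)))
  refine ⟨max Y (m₁ + 3), le_max_right _ _, fun a ha b hab hb i => ?_⟩
  obtain ⟨g1, g2⟩ := hY a ((le_max_left _ _).trans ha)
  have g3 := g1 i
  have w1 := h.fw_pos i (y := 4 * a) (by omega)
  rw [div_lt_iff₀ w1] at g3
  have w2 := h.fw_anti i (y := b) (z := 4 * a) (by omega) hb
  exact g3.le.trans (mul_le_mul_of_nonneg_left w2 (by linarith))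

/-- The factors. -/
theorem lam_close {C x H j l : ℕ} (hj : 1 ≤ j) (hC : 1 ≤ C) (hl : 1 ≤ l) (h1 : 2 ^ j ≤ H) (h2 : H < 2 ^ (j + 1))
    (h3 : l * 2 ^ j ≤ x) (h4 : x < (l + 1) * 2 ^ j) (h5 : x ≤ 2 ^ (C * j)) :
    |Real.log ((l : ℝ) * (j + 2)) - lam x H| ≤ Real.log 2 + Real.log 5 + Real.log C := by
  have hl0 : (1 : ℝ) ≤ l := by exact_mod_cast hl
  have hj0 : (1 : ℝ) ≤ j := by exact_mod_cast hj
  have hC0 : (1 : ℝ) ≤ C := by exact_mod_cast hC
  have hp : (0 : ℝ) < (2 : ℝ) ^ j := by positivity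
  have r1 : (2 : ℝ) ^ j ≤ H := by exact_mod_cast h1
  have r2 : (H : ℝ) < 2 * 2 ^ j := by
    have : (H : ℝ) < ((2 ^ (j + 1) : ℕ) : ℝ) := by exact_mod_cast h2
    push_cast at this
    rw [pow_succ] at this
    linarith
  have r3 : (l : ℝ) * 2 ^ j ≤ x := by exact_mod_cast h3
  have r4 : (x : ℝ) < ((l : ℝ) + 1) * 2 ^ j := by exact_mod_cast h4
  have r5 : (x : ℝ) ≤ (2 : ℝ) ^ (C * j) := by exact_mod_cast h5
  have hH0 : (0 : ℝ) < H := by linarith
  have hx0 : (0 : ℝ) < x := by nlinarith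
  have q1 : (l : ℝ) / 2 ≤ (x : ℝ) / H := by
    rw [div_le_div_iff₀ (by norm_num) hH0]
    nlinarith
  have q2 : (x : ℝ) / H ≤ 2 * l := by
    rw [div_le_iff₀ hH0]
    nlinarith
  have s1 : Real.log l - Real.log 2 ≤ Real.log ((x : ℝ) / H) := by
    rw [← Real.log_div (by positivity) (by norm_num)]
    exact Real.log_le_log (by positivity) q1
  have s2 : Real.log ((x : ℝ) / H) ≤ Real.log 2 + Real.log l := by
    rw [← Real.log_mul (by norm_num) (by positivity)]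
    exact Real.log_le_log (by positivity) q2
  have d9 := Real.log_two_gt_d9
  have d9' := Real.log_two_lt_d9
  have t1 : ((j : ℝ) + 2) / 5 ≤ Real.log x := by
    have e1 : (j : ℝ) * Real.log 2 ≤ Real.log x := by
      rw [← Real.log_pow]
      refine Real.log_le_log hp ?_
      nlinarith
    nlinarith
  have t2 : Real.log x ≤ C * ((j : ℝ) + 2) := by
    have e1 : Real.log x ≤ ((C * j : ℕ) : ℝ) * Real.log 2 := by
      rw [← Real.log_pow]
      exact Real.log_le_log hx0 r5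
    push_cast at e1
    have e2 : (C : ℝ) * j * Real.log 2 ≤ C * j := by
      have : (0 : ℝ) ≤ C * j := by positivity
      nlinarith
    nlinarith
  have s3 : Real.log ((j : ℝ) + 2) - Real.log 5 ≤ Real.log (Real.log x) := by
    rw [← Real.log_div (by positivity) (by norm_num)]
    exact Real.log_le_log (by positivity) t1
  have s4 : Real.log (Real.log x) ≤ Real.log C + Real.log ((j : ℝ) + 2) := by
    rw [← Real.log_mul (by positivity) (by positivity)]
    exact Real.log_le_log (lt_of_lt_of_le (by positivity) t1) t2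
  have s5 : Real.log ((l : ℝ) * (j + 2)) = Real.log l + Real.log ((j : ℝ) + 2) :=
    Real.log_mul (by positivity) (by positivity)
  have c1 : 0 ≤ Real.log C := Real.log_nonneg hC0
  have c2 : 0 ≤ Real.log 5 := Real.log_nonneg (by norm_num)
  rw [s5, abs_le]
  unfold lam
  constructor <;> linarith

/-- **The paths of all windows are near Strassen's ball.** -/
theorem uniform {Ω : Type*} [MeasurableSpace Ω] {μ : Measure Ω} [IsProbabilityMeasure μ] {A : Ω → Set ℕ} (h : Sys Q S f m₁)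
    (hQ : 1 ≤ Q) (hA : IsModel μ (level Q) A) : ∀ᵐ ω ∂μ, ∀ δ : ℝ, 0 < δ → ∀ ε > 0, ∀ᶠ x : ℕ in atTop, ∀ H : ℕ,
      (x : ℝ) ^ δ ≤ H → H ≤ x → ∃ φ e, e ≤ 1 ∧ Energy φ e ∧
        Near ε (fun i t => Wp (cD (A ω) Q S f m₁) (cP Q S f m₁) x (x + H) (lam x H) i t) φ := by
  have hall : ∀ᵐ ω ∂μ, ∀ C : ℕ, ∀ ε > 0, ∃ B : ℕ, ∀ l j : ℕ, 1 ≤ l → l ≤ 2 ^ (C * j) →
      B ≤ l * 2 ^ j → ∃ φ e, e ≤ 1 ∧ Energy φ e ∧ Near ε (fun i t => Wp (cD (A ω) Q S f m₁) (cP Q S f m₁) (l * 2 ^ j)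
        ((l + 3) * 2 ^ j) (Real.log ((l : ℝ) * (j + 2))) i t) φ := ae_all_iff.2 (fun C => nearU h hQ hA C)
  filter_upwards [hall] with ω hω δ hδ ε hε
  obtain ⟨C, hC⟩ : ∃ C, C = ⌈2 / δ⌉₊ + 1 := ⟨_, rfl⟩
  have hC1 : 1 ≤ C := by omega
  have hCδ : 2 / δ ≤ C := by
    rw [hC]
    push_cast
    have := Nat.le_ceil (2 / δ)
    linarith
  obtain ⟨B, hB⟩ := hω C (ε * √(1 / 3) / 4) (by positivity)
  obtain ⟨η, hη⟩ : ∃ η, η = ε / 2 / (1 + ε / 2) := ⟨_, rfl⟩
  have hη0 : 0 < η := by rw [hη]; positivity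
  have hη1 : η ≤ 1 := by
    rw [hη, div_le_one (by positivity)]
    linarith
  obtain ⟨Y, hY1, hY⟩ := fw_flat h (show 0 < η / 3 by positivity)
  obtain ⟨K, hK⟩ : ∃ K, K = Real.log 2 + Real.log 5 + Real.log C := ⟨_, rfl⟩
  have hK0 : 0 ≤ K := by
    have c0 : 0 ≤ Real.log (C : ℝ) := Real.log_natCast_nonneg C
    have c2 : 0 ≤ Real.log (5 : ℝ) := Real.log_nonneg (by norm_num)
    have c3 : 0 ≤ Real.log (2 : ℝ) := Real.log_nonneg (by norm_num)
    rw [hK]
    linarith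
  have hpow : Tendsto (fun x : ℕ => (x : ℝ) ^ δ) atTop atTop := (tendsto_rpow_atTop hδ).comp tendsto_natCast_atTop_atTop
  filter_upwards [hpow.eventually_ge_atTop 2, eventually_ge_atTop (2 * B + 2 * Y + 2),
    ST.llog_top.eventually_ge_atTop (3 * K / η + 1)] with x g1 g2 g3 H hH1 hH2
  have hx0 : (0 : ℝ) < x := by exact_mod_cast (show 0 < x by omega)
  have hH0 : (2 : ℝ) ≤ H := g1.trans hH1
  have hH2' : 2 ≤ H := by exact_mod_cast hH0
  obtain ⟨j, hj⟩ : ∃ j, j = Nat.log 2 H := ⟨_, rfl⟩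
  have j1 : 2 ^ j ≤ H := by
    rw [hj]
    exact Nat.pow_log_le_self 2 (by omega)
  have j2 : H < 2 ^ (j + 1) := by
    rw [hj]
    exact Nat.lt_pow_succ_log_self (by norm_num) H
  have j3 : 1 ≤ j := by
    rw [hj]
    exact Nat.le_log_of_pow_le (by norm_num) (by omega)
  have hp : 0 < 2 ^ j := by positivity
  obtain ⟨l, hl⟩ : ∃ l, l = x / 2 ^ j := ⟨_, rfl⟩
  have l1 : 1 ≤ l := by
    rw [hl, Nat.one_le_div_iff hp]
    omega
  have l2 : l * 2 ^ j ≤ x := by
    rw [hl]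
    exact Nat.div_mul_le_self x _
  have l3 : x < (l + 1) * 2 ^ j := by
    rw [hl]
    have h5 := Nat.div_add_mod x (2 ^ j)
    have h6 := Nat.mod_lt x hp
    have h7 : (x / 2 ^ j + 1) * 2 ^ j = 2 ^ j * (x / 2 ^ j) + 2 ^ j := by ring
    omega
  have hxC : x ≤ 2 ^ (C * j) := by
    have e1 : (x : ℝ) ≤ ((2 : ℝ) ^ ((C * j : ℕ) : ℝ)) := by
      have e2 : ((x : ℝ) ^ δ) ^ (1 / δ) = x := by
        rw [← Real.rpow_mul hx0.le, mul_one_div_cancel hδ.ne', Real.rpow_one]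
      have e3 : (x : ℝ) ^ δ ≤ (2 : ℝ) ^ (((j + 1 : ℕ)) : ℝ) := by
        rw [Real.rpow_natCast]
        refine hH1.trans ?_
        exact_mod_cast j2.le
      have e4 := Real.rpow_le_rpow (by positivity) e3 (show 0 ≤ 1 / δ by positivity)
      rw [e2, ← Real.rpow_mul (by norm_num)] at e4
      refine e4.trans (Real.rpow_le_rpow_of_exponent_le (by norm_num) ?_)
      push_cast
      have hj1 : (1 : ℝ) ≤ j := by exact_mod_cast j3
      calc ((j : ℝ) + 1) * (1 / δ) ≤ (2 * j) * (1 / δ) := by gcongr; linarith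
        _ = (2 / δ) * j := by ring
        _ ≤ C * j := by gcongr
    rw [Real.rpow_natCast] at e1
    exact_mod_cast e1
  have lC : l ≤ 2 ^ (C * j) := by
    refine le_trans ?_ hxC
    exact (Nat.le_mul_of_pos_right l hp).trans l2
  have h2a : x < 2 * (l * 2 ^ j) := by
    have : (l + 1) * 2 ^ j ≤ (2 * l) * 2 ^ j := Nat.mul_le_mul_right _ (by omega)
    calc x < (l + 1) * 2 ^ j := l3
      _ ≤ (2 * l) * 2 ^ j := this
      _ = 2 * (l * 2 ^ j) := by ring
  obtain ⟨φ, e, he, hφ, hN⟩ := hB l j l1 lC (by omega)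
  obtain ⟨a, ha⟩ : ∃ a, a = l * 2 ^ j := ⟨_, rfl⟩
  obtain ⟨b, hb⟩ : ∃ b, b = (l + 3) * 2 ^ j := ⟨_, rfl⟩
  have hab : b = a + 3 * 2 ^ j := by
    rw [ha, hb]
    ring
  rw [← ha, ← hb] at hN
  rw [← ha] at l2 h2a
  have hYa : Y ≤ a := by omega
  have hxb : x + H ≤ b := by
    have e1 : (l + 1) * 2 ^ j = a + 2 ^ j := by rw [ha]; ring
    have e2 : (2 : ℕ) ^ (j + 1) = 2 * 2 ^ j := by ring
    omega
  have hb4 : b ≤ 4 * a := by
    have : 2 ^ j ≤ a := by
      rw [ha]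
      exact Nat.le_mul_of_pos_left _ l1
    omega
  have hpart := fun i => h.part i (a := a) (b := b) (x := x) (k := H) (by omega) l2 (by omega) hxb
  have hll : 3 * K / η + 1 ≤ Real.log (Real.log x) := g3
  have hlH : 0 ≤ Real.log ((x : ℝ) / H) := by
    refine Real.log_nonneg ?_
    rw [one_le_div (by linarith)]
    exact_mod_cast hH2
  have hlam : 3 * K / η + 1 ≤ lam x H := by
    unfold lam
    linarith
  have hlam0 : 0 < lam x H := by
    have : 0 ≤ 3 * K / η := by positivity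
    linarith
  have hclose := lam_close j3 hC1 l1 j1 j2 (by rw [ha] at l2; exact l2) l3 hxC
  rw [← hK] at hclose
  have hL0 : 0 < Real.log ((l : ℝ) * (j + 2)) := by
    refine Real.log_pos ?_
    have e1 : (1 : ℝ) ≤ l := by exact_mod_cast l1
    have e2 : (1 : ℝ) ≤ j := by exact_mod_cast j3
    nlinarith
  refine near_sub (κ := 1 / 3) (L := Real.log ((l : ℝ) * (j + 2))) l2 (by omega) hxb (fun i => (hpart i).2.1)
    (fun i => (hpart i).1) hL0 hlam0 hε (by norm_num) ?_ (fun i => ?_) he hφ hN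
  · have e1 : (b : ℝ) - a = 3 * 2 ^ j := by
      rw [hab]
      push_cast
      ring
    rw [e1]
    have e2 : ((2 : ℝ)) ^ j ≤ H := by exact_mod_cast j1
    linarith
  · rw [← hη]
    obtain ⟨p1, p2, p3, p4⟩ := hpart i
    have w1 := hY a hYa b (by omega) hb4 i
    have w2 := h.fw_pos i (y := b) (by omega)
    have w3 := h.fw_pos i (y := a) (by omega)
    have w4 : fw (S i) f a / fw (S i) f b ≤ 1 + η / 3 := by
      rw [div_le_iff₀ w2]
      exact w1
    have w5 : 1 - η / 3 ≤ (fw (S i) f a / fw (S i) f b)⁻¹ := by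
      rw [inv_div, le_div_iff₀ w3]
      have e2 : (1 - η / 3) * fw (S i) f a ≤ (1 - η / 3) * ((1 + η / 3) * fw (S i) f b) :=
        mul_le_mul_of_nonneg_left w1 (by linarith)
      refine e2.trans ?_
      have e3 : (1 - η / 3) * ((1 + η / 3) * fw (S i) f b) = (1 - (η / 3) ^ 2) * fw (S i) f b := by ring
      rw [e3]
      have : 0 ≤ (η / 3) ^ 2 := by positivity
      nlinarith
    obtain ⟨z, hz⟩ : ∃ z, z = (H : ℝ) / ((b : ℝ) - a) * (cP Q S f m₁ i b - cP Q S f m₁ i a) /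
      (cP Q S f m₁ i (x + H) - cP Q S f m₁ i x) := ⟨_, rfl⟩
    rw [← hz] at p3 p4 ⊢
    have z1 : 1 - η / 3 ≤ z := w5.trans p3
    have z2 : z ≤ 1 + η / 3 := p4.trans w4
    obtain ⟨y, hy⟩ : ∃ y, y = Real.log ((l : ℝ) * (j + 2)) / lam x H := ⟨_, rfl⟩
    rw [← hy]
    have hKl : K ≤ η / 3 * lam x H := by
      have e1 : 3 * K / η ≤ lam x H := by linarith
      rw [div_le_iff₀ hη0] at e1
      linarith
    have y1 : 1 - η / 3 ≤ y := by
      rw [hy, le_div_iff₀ hlam0]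
      have := (abs_le.1 hclose).1
      nlinarith
    have y2 : y ≤ 1 + η / 3 := by
      rw [hy, div_le_iff₀ hlam0]
      have := (abs_le.1 hclose).2
      nlinarith
    have hz0 : 0 ≤ z := by linarith
    have hy0 : 0 ≤ y := by linarith
    have u1 : z * y ≤ (1 + η / 3) * (1 + η / 3) := mul_le_mul z2 y2 hy0 (by linarith)
    have u2 : (1 - η / 3) * (1 - η / 3) ≤ z * y := mul_le_mul z1 y1 (by linarith) hz0
    refine sqrt_near hη0 hη1 ?_ ?_
    · nlinarith
    · nlinarith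

end Pool.Agent.Q106.UN
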