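import Pool.Agent.Q106.UN.Psy

/-!
# Paths in windows with arbitrary speeds are near Strassen's ball
-/

set_option autoImplicit false

namespace Pool.Agent.Q106.UN

open Finset MeasureTheory ProbabilityTheory Filter Pool.Agent.Q120.GM Pool.Agent.Q106.UR Pool.Agent.Q106.MD
  Pool.Agent.Q106.CH Pool.Agent.Q106.UV Pool.Agent.Q106.FL
open scoped Topology

variable {σ : Type*} {Q r : ℕ} {S : Fin r → Finset σ} {f : Fin r → σ → ℕ → ℕ} {N : ℕ → ℕ} {a b : ℕ → Fin r → ℕ}
  {M L : ℕ → ℝ} {δ K : ℝ}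

/-- **The data of the cells.** -/
theorem UD.cells (hG : UD Q S f N a b M L δ K) (hδ : 0 < δ) {q : ℕ} (hq : 1 ≤ q) :
    UD Q (fun x : Fin (r * q) => S (c1 x)) (fun x => f (c1 x)) N (fun n x => lft a b n x) (fun n x => rgt a b n x)
      (fun n => M n / (2 * q)) L (δ / 2) (2 * K + 2 * q) := by
  have hq0 : (1 : ℝ) ≤ q := by exact_mod_cast hq
  have hab : ∀ n i, a n i ≤ b n i := fun n i => (hG.win n i).2
  have l1 : Tendsto (fun n => (N n : ℝ) ^ (δ / 2)) atTop atTop :=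
    (tendsto_rpow_atTop (by positivity)).comp (tendsto_natCast_atTop_atTop.comp hG.Nlim)
  have hMl : ∀ᶠ n in atTop, 2 * (q : ℝ) ≤ M n := by
    filter_upwards [hG.size, l1.eventually_ge_atTop (2 * q)] with n h1 h2
    have e1 : (N n : ℝ) ^ δ = (N n : ℝ) ^ (δ / 2) * (N n : ℝ) ^ (δ / 2) := by
      rw [← Real.rpow_add_of_nonneg (Nat.cast_nonneg _) (by positivity) (by positivity)]
      congr 1
      ring
    nlinarith
  refine ⟨fun x => hG.ne _, fun x => hG.mono _, fun x => hG.per _, fun x => hG.dist _, fun x => hG.sing _, ?_, ?_, ?_, ?_,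
    ?_, ?_, ?_, hG.Nlim, hG.Llim, hG.Lle, hG.sum⟩
  · intro n x
    obtain ⟨g1, g2, g3⟩ := cell_bounds hq (hab n) x
    exact ⟨(hG.win _ _).1.trans g1, g2⟩
  · intro n x x' m m' h1 h2 h3 h4 he
    obtain ⟨g1, g2, g3⟩ := cell_bounds hq (hab n) x
    obtain ⟨g1', g2', g3'⟩ := cell_bounds hq (hab n) x'
    have hi : c1 x = c1 x' := hG.uniq _ _ _ m m' (g1.trans h1) (by omega) (g1'.trans h3) (by omega) he
    have hm : m = m' := by
      rw [← hi] at he
      exact ft_inj (hG.ne _) (hG.mono _) he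
    subst hm
    exact cell_eq hq (hab n) hi h1 h2 h3 h4
  · filter_upwards [hG.bd] with n hn x s hs m hm
    obtain ⟨g1, g2, g3⟩ := cell_bounds hq (hab n) x
    exact hn _ s hs m (by omega)
  · filter_upwards [hG.size, l1.eventually_ge_atTop (2 * q)] with n h1 h2
    rw [le_div_iff₀ (by positivity)]
    have e1 : (N n : ℝ) ^ δ = (N n : ℝ) ^ (δ / 2) * (N n : ℝ) ^ (δ / 2) := by
      rw [← Real.rpow_add_of_nonneg (Nat.cast_nonneg _) (by positivity) (by positivity)]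
      congr 1
      ring
    rw [e1] at h1
    refine le_trans ?_ h1
    exact mul_le_mul_of_nonneg_left h2 (by positivity)
  · filter_upwards [hG.low, hMl] with n h1 h2 x
    have e1 := (cell_size hq (hab n) x).2
    have e2 := h1 (c1 x)
    have e3 : M n / (2 * q) = 1 / q * M n - M n / (2 * q) := by
      field_simp
      ring
    have e4 : 1 ≤ M n / (2 * q) := by
      rw [one_le_div (by positivity)]
      exact h2
    have e5 := mul_le_mul_of_nonneg_left e2 (show (0 : ℝ) ≤ 1 / q by positivity)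
    linarith
  · filter_upwards [hG.high, hMl] with n h1 h2 x
    have e1 := (cell_size hq (hab n) x).1
    have e2 := mul_le_mul_of_nonneg_left (h1 (c1 x)) (show (0 : ℝ) ≤ 1 / q by positivity)
    have e3 : (2 * K + 2 * q) * (M n / (2 * q)) = 1 / q * (K * M n) + M n := by
      field_simp
    rw [e3]
    linarith
  · have := hG.Kone
    linarith

/-- The path. -/
noncomputable def gP (Q : ℕ) (A : Set ℕ) (S : Fin r → Finset σ) (f : Fin r → σ → ℕ → ℕ) (a b : ℕ → Fin r → ℕ)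
    (L : ℕ → ℝ) (n : ℕ) (i : Fin r) (t : ℝ) : ℝ :=
  (fN A (S i) (f i) (a n i) (pt (a n i) (b n i) t) - fex Q (S i) (f i) (a n i) (pt (a n i) (b n i) t)) /
    √(2 * fex Q (S i) (f i) (a n i) (b n i) * L n)

theorem gP_zero (Q : ℕ) (A : Set ℕ) (S : Fin r → Finset σ) (f : Fin r → σ → ℕ → ℕ) (a b : ℕ → Fin r → ℕ) (L : ℕ → ℝ)
    (n : ℕ) (i : Fin r) : gP Q A S f a b L n i 0 = 0 := by
  unfold gP
  rw [pt_zero]
  have h1 : fN A (S i) (f i) (a n i) (a n i) = 0 := by
    unfold fN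
    have : {m : ℕ | a n i ≤ m ∧ m < a n i ∧ ∀ s ∈ S i, f i s m ∈ A} = ∅ := by
      ext m
      simp only [Set.mem_setOf_eq, Set.mem_empty_iff_false, iff_false]
      rintro ⟨h1, h2, _⟩
      omega
    rw [this]
    simp
  have h2 : fex Q (S i) (f i) (a n i) (a n i) = 0 := by
    unfold fex
    simp
  rw [h1, h2]
  simp

theorem gP_sub {A : Set ℕ} {n : ℕ} {i : Fin r} (hab : a n i ≤ b n i) {s t : ℝ} (hst : s ≤ t) :
    gP Q A S f a b L n i t - gP Q A S f a b L n i s =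
      (fN A (S i) (f i) (pt (a n i) (b n i) s) (pt (a n i) (b n i) t) -
        fex Q (S i) (f i) (pt (a n i) (b n i) s) (pt (a n i) (b n i) t)) /
        √(2 * fex Q (S i) (f i) (a n i) (b n i) * L n) := by
  unfold gP
  rw [fN_add A (S i) (f i) (pt_ge (a n i) (b n i) s) (pt_mono hab hst),
    fex_add Q (S i) (f i) (pt_ge (a n i) (b n i) s) (pt_mono hab hst), ← sub_div]
  congr 1
  ring

/-- The clock. -/
theorem clock_le (hG : UD Q S f N a b M L δ K) {q : ℕ} (hq : 1 ≤ q) {n : ℕ} {η : ℝ} (hη : 0 < η)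
    (h1 : ∀ i, fw (S i) (f i) (a n i) ≤ (1 + η) * fw (S i) (f i) (b n i)) (h2 : ∀ i, q ≤ η * ((b n i : ℝ) - a n i))
    (h3 : ∀ i, 3 ≤ a n i) (x : Fin (r * q)) : q * fex Q (S (c1 x)) (f (c1 x)) (lft a b n x) (rgt a b n x) ≤
      (1 + η) ^ 2 * fex Q (S (c1 x)) (f (c1 x)) (a n (c1 x)) (b n (c1 x)) := by
  have hq0 : (0 : ℝ) < q := by exact_mod_cast hq
  have hab : ∀ i, a n i ≤ b n i := fun i => (hG.win n i).2
  obtain ⟨g1, g2, g3⟩ := cell_bounds hq hab x
  obtain ⟨i, hi⟩ : ∃ i, i = c1 x := ⟨_, rfl⟩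
  have hanti : ∀ y z : ℕ, 3 ≤ y → y ≤ z → fw (S i) (f i) z ≤ fw (S i) (f i) y := by
    intro y z hy hyz
    unfold fw
    refine prod_le_prod (fun s _ => inv_nonneg.2 (Real.log_natCast_nonneg _)) (fun s hs => ?_)
    have e1 := fge (hG.mono i) hs y
    have e2 := (hG.mono i s hs).monotone hyz
    have e3 : (1 : ℝ) < f i s y := by exact_mod_cast (show 1 < f i s y by omega)
    exact inv_anti₀ (Real.log_pos e3) (Real.log_le_log (by linarith) (by exact_mod_cast e2))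
  have hser : 0 ≤ fser Q (S i) (f i) := (hG.sing i).le
  have hup : fex Q (S i) (f i) (lft a b n x) (rgt a b n x) ≤
      fser Q (S i) (f i) * (((rgt a b n x : ℝ) - lft a b n x) * fw (S i) (f i) (a n i)) := by
    unfold fex
    refine mul_le_mul_of_nonneg_left ?_ hser
    have e1 := sum_le_card_nsmul (Ico (lft a b n x) (rgt a b n x)) (fun y => fw (S i) (f i) y) (fw (S i) (f i) (a n i))
      (fun y hy => by
        rw [mem_Ico] at hy
        rw [← hi] at g1
        exact hanti _ _ (h3 i) (by omega))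
    rwa [nsmul_eq_mul, Nat.card_Ico, Nat.cast_sub g2] at e1
  have hlo : fser Q (S i) (f i) * (((b n i : ℝ) - a n i) * fw (S i) (f i) (b n i)) ≤ fex Q (S i) (f i) (a n i) (b n i) := by
    unfold fex
    refine mul_le_mul_of_nonneg_left ?_ hser
    have e1 := card_nsmul_le_sum (Ico (a n i) (b n i)) (fun y => fw (S i) (f i) y) (fw (S i) (f i) (b n i))
      (fun y hy => by
        rw [mem_Ico] at hy
        exact hanti _ _ (by have := h3 i; omega) hy.2.le)
    rwa [nsmul_eq_mul, Nat.card_Ico, Nat.cast_sub (hab i)] at e1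
  have hsz := (cell_size hq hab x).1
  rw [← hi] at hsz ⊢
  obtain ⟨w, hw⟩ : ∃ w, w = (b n i : ℝ) - a n i := ⟨_, rfl⟩
  rw [← hw] at hsz hlo
  have hw2 : (q : ℝ) ≤ η * w := by rw [hw]; exact h2 i
  have hw0 : 0 < w := by
    by_contra hcon
    push Not at hcon
    nlinarith
  have e1 : q * ((rgt a b n x : ℝ) - lft a b n x) ≤ (1 + η) * w := by
    have e2 := mul_le_mul_of_nonneg_left hsz hq0.le
    have e3 : (q : ℝ) * (1 / q * w + 1) = w + q := by field_simp
    rw [e3] at e2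
    linarith
  have w1 : 0 ≤ fw (S i) (f i) (a n i) := prod_nonneg (fun _ _ => inv_nonneg.2 (Real.log_natCast_nonneg _))
  have w2 : 0 ≤ fw (S i) (f i) (b n i) := prod_nonneg (fun _ _ => inv_nonneg.2 (Real.log_natCast_nonneg _))
  calc q * fex Q (S i) (f i) (lft a b n x) (rgt a b n x)
      ≤ q * (fser Q (S i) (f i) * (((rgt a b n x : ℝ) - lft a b n x) * fw (S i) (f i) (a n i))) :=
        mul_le_mul_of_nonneg_left hup hq0.le
    _ = fser Q (S i) (f i) * ((q * ((rgt a b n x : ℝ) - lft a b n x)) * fw (S i) (f i) (a n i)) := by ring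
    _ ≤ fser Q (S i) (f i) * (((1 + η) * w) * ((1 + η) * fw (S i) (f i) (b n i))) := by
        refine mul_le_mul_of_nonneg_left ?_ hser
        exact mul_le_mul e1 (h1 i) w1 (by positivity)
    _ = (1 + η) ^ 2 * (fser Q (S i) (f i) * (w * fw (S i) (f i) (b n i))) := by ring
    _ ≤ (1 + η) ^ 2 * fex Q (S i) (f i) (a n i) (b n i) := mul_le_mul_of_nonneg_left hlo (by positivity)

variable {Ω : Type*} [MeasurableSpace Ω] {μ : Measure Ω} [IsProbabilityMeasure μ] {A : Ω → Set ℕ}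

/-- The increments. -/
theorem UD.incs (hG : UD Q S f N a b M L δ K) (hQ : 1 ≤ Q) (hδ : 0 < δ) (hδ1 : δ ≤ 1) (hA : IsModel μ (level Q) A)
    (hw : ∀ i, ∀ η > 0, ∀ᶠ n in atTop, fw (S i) (f i) (a n i) ≤ (1 + η) * fw (S i) (f i) (b n i)) {q : ℕ} (hq : 1 ≤ q) :
    ∀ᵐ ω ∂μ, ∀ ε > 0, ∀ᶠ n in atTop, ∑ x, FL.inc q (gP Q (A ω) S f a b L n) x ^ 2 ≤ 1 + ε := by
  have hq0 : (0 : ℝ) < q := by exact_mod_cast hq
  filter_upwards [(hG.cells hδ hq).up hQ (show 0 < δ / 2 by positivity) (by linarith) hA] with ω hω ε hε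
  obtain ⟨η, hη⟩ : ∃ η, η = min 1 ε / 16 := ⟨_, rfl⟩
  have hη0 : 0 < η := by
    rw [hη]
    have := lt_min one_pos hε
    positivity
  have hη1 : η ≤ 1 / 16 := by
    rw [hη]
    have := min_le_left 1 ε
    linarith
  have hη2 : η ≤ ε / 16 := by
    rw [hη]
    have := min_le_right 1 ε
    linarith
  have hlen : ∀ᶠ n in atTop, ∀ i, (q : ℝ) ≤ η * ((b n i : ℝ) - a n i) := by
    have l1 : Tendsto (fun n => η * (N n : ℝ) ^ δ) atTop atTop :=
      ((tendsto_rpow_atTop hδ).comp (tendsto_natCast_atTop_atTop.comp hG.Nlim)).const_mul_atTop hη0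
    filter_upwards [hG.size, hG.low, l1.eventually_ge_atTop (q : ℝ)] with n h1 h2 h3 i
    exact h3.trans (mul_le_mul_of_nonneg_left (h1.trans (h2 i)) hη0.le)
  have hall : ∀ᶠ n in atTop, ∀ i, fw (S i) (f i) (a n i) ≤ (1 + η) * fw (S i) (f i) (b n i) :=
    eventually_all.2 (fun i => hw i η hη0)
  filter_upwards [hω η hη0, hlen, hall, hG.Llim.eventually_gt_atTop 0, hG.le hQ hδ hδ1, hG.facts hQ hδ hδ1 (fR S) 1,
    (hG.cells hδ hq).le hQ (show 0 < δ / 2 by positivity) (by linarith),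
    (hG.cells hδ hq).facts hQ (show 0 < δ / 2 by positivity) (by linarith) (fR (fun x : Fin (r * q) => S (c1 x))) 1]
    with n h1 h2 h3 h4 h5 h6 h7 h8
  obtain ⟨_, _, _, k4, _, k6, _⟩ := h6
  obtain ⟨_, _, _, l4, _, l6, _⟩ := h8
  have hab : ∀ i, a n i ≤ b n i := fun i => (hG.win n i).2
  have hsq : ∀ x ∈ (univ : Finset (Fin (r * q))), FL.inc q (gP Q (A ω) S f a b L n) x ^ 2 ≤
      (1 + η) ^ 2 * uD Q (A ω) (fun x : Fin (r * q) => S (c1 x)) (fun x => f (c1 x)) (fun n x => lft a b n x)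
        (fun n x => rgt a b n x) L n x ^ 2 := by
    intro x _
    obtain ⟨e, he⟩ : ∃ e, e = fex Q (S (c1 x)) (f (c1 x)) (lft a b n x) (rgt a b n x) := ⟨_, rfl⟩
    obtain ⟨E, hE⟩ : ∃ E, E = fex Q (S (c1 x)) (f (c1 x)) (a n (c1 x)) (b n (c1 x)) := ⟨_, rfl⟩
    have hE0 : 0 < E := by
      have e1 := h5 (c1 x)
      unfold uE at e1
      rw [hE]
      linarith
    have he0 : 0 < e := by
      have e1 := h7 x
      unfold uE at e1
      rw [he]
      linarith
    have hst : ((c2 x : ℕ) : ℝ) / q ≤ ((c2 x : ℕ) : ℝ) / q + 1 / q := by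
      have : (0 : ℝ) ≤ 1 / q := by positivity
      linarith
    have hinc : FL.inc q (gP Q (A ω) S f a b L n) x = √(q : ℝ) * ((fN (A ω) (S (c1 x)) (f (c1 x)) (lft a b n x)
        (rgt a b n x) - e) / √(2 * E * L n)) := by
      unfold FL.inc
      have h9 := gP_sub (Q := Q) (A := A ω) (S := S) (f := f) (a := a) (b := b) (L := L) (n := n) (i := c1 x) (hab _) hst
      rw [hE, he]
      unfold lft rgt
      rw [← h9]
      rfl
    have hclk := clock_le hG hq hη0 h3 h2 (fun i => (hG.win n i).1) x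
    rw [← he, ← hE] at hclk
    have huD : uD Q (A ω) (fun x : Fin (r * q) => S (c1 x)) (fun x => f (c1 x)) (fun n x => lft a b n x)
        (fun n x => rgt a b n x) L n x = (fN (A ω) (S (c1 x)) (f (c1 x)) (lft a b n x) (rgt a b n x) - e) /
        √(2 * e * L n) := by
      unfold uD
      rw [he]
    rw [hinc, huD, mul_pow, div_pow, div_pow, Real.sq_sqrt hq0.le, Real.sq_sqrt (by positivity), Real.sq_sqrt (by positivity)]
    obtain ⟨X, hX⟩ : ∃ X, X = (fN (A ω) (S (c1 x)) (f (c1 x)) (lft a b n x) (rgt a b n x) - e) ^ 2 := ⟨_, rfl⟩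
    rw [← hX]
    have hX0 : 0 ≤ X := by rw [hX]; positivity
    rw [mul_div_assoc', mul_div_assoc', div_le_div_iff₀ (by positivity) (by positivity)]
    have e1 := mul_le_mul_of_nonneg_left hclk (show 0 ≤ X * (2 * L n) by positivity)
    nlinarith
  refine (sum_le_sum hsq).trans ?_
  rw [← mul_sum]
  have e1 : (1 + η) ^ 2 * ∑ x, uD Q (A ω) (fun x : Fin (r * q) => S (c1 x)) (fun x => f (c1 x)) (fun n x => lft a b n x)
      (fun n x => rgt a b n x) L n x ^ 2 ≤ (1 + η) ^ 2 * (1 + η) := mul_le_mul_of_nonneg_left h1 (by positivity)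
  refine e1.trans ?_
  have e2 : η * η ≤ η / 16 := by nlinarith
  have e3 : η * η * η ≤ η / 16 := by nlinarith
  have e4 : (1 + η) ^ 2 * (1 + η) = 1 + 3 * η + 3 * (η * η) + η * η * η := by ring
  rw [e4]
  linarith

/-- **The paths are near the ball.** -/
theorem UD.near (hG : UD Q S f N a b M L δ K) (hQ : 1 ≤ Q) (hδ : 0 < δ) (hδ1 : δ ≤ 1) (hA : IsModel μ (level Q) A)
    (hw : ∀ i, ∀ η > 0, ∀ᶠ n in atTop, fw (S i) (f i) (a n i) ≤ (1 + η) * fw (S i) (f i) (b n i))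
    {C : ℝ} (hOD : ∀ i, OD Q (S i) (fun _ => f i) N (fun n => a n i) (fun n => b n i) L δ C) :
    ∀ᵐ ω ∂μ, ∀ ε > 0, ∀ᶠ n in atTop, ∃ φ e, e ≤ 1 ∧ Energy φ e ∧ Near ε (gP Q (A ω) S f a b L n) φ := by
  have hosc : ∀ᵐ ω ∂μ, ∀ i, ∀ ε > 0, ∃ q₀ : ℕ, ∀ q ≥ q₀, ∀ᶠ n in atTop, ∀ u v : ℕ, a n i ≤ u → u ≤ v → v ≤ b n i →
      (v : ℝ) - u ≤ ((b n i : ℝ) - a n i) / q + 1 → |fN (A ω) (S i) (f i) u v - fex Q (S i) (f i) u v| ≤
      ε * √(2 * fex Q (S i) (f i) (a n i) (b n i) * L n) :=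
    ae_all_iff.2 (fun i => osc_fun hA (hOD i) hQ hδ hδ1)
  have hinc : ∀ᵐ ω ∂μ, ∀ q : ℕ, 1 ≤ q → ∀ ε > 0, ∀ᶠ n in atTop, ∑ x, FL.inc q (gP Q (A ω) S f a b L n) x ^ 2 ≤ 1 + ε := by
    refine ae_all_iff.2 (fun q => ?_)
    by_cases hq : 1 ≤ q
    · filter_upwards [hG.incs hQ hδ hδ1 hA hw hq] with ω hω _
      exact hω
    · exact Eventually.of_forall (fun ω h => absurd h hq)
  filter_upwards [hosc, hinc] with ω h1 h2 ε hε
  choose q₀ hq₀ using fun i => h1 i (ε / 4) (by positivity)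
  obtain ⟨q, hq⟩ : ∃ q, q = univ.sup q₀ + 1 := ⟨_, rfl⟩
  have hq0 : (0 : ℝ) < q := by exact_mod_cast (show 0 < q by omega)
  have hosc' : ∀ᶠ n in atTop, ∀ i s t, 0 ≤ s → s ≤ t → t ≤ 1 → t - s ≤ 1 / (q : ℝ) →
      |gP Q (A ω) S f a b L n i t - gP Q (A ω) S f a b L n i s| ≤ ε / 4 := by
    refine eventually_all.2 (fun i => ?_)
    have hqi : q₀ i ≤ q := by
      have := le_sup (f := q₀) (mem_univ i)
      omega
    filter_upwards [hq₀ i q hqi] with n hn s t hs hst ht htq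
    have habn : a n i ≤ b n i := (hG.win n i).2
    rw [gP_sub habn hst, abs_div, abs_of_nonneg (Real.sqrt_nonneg _)]
    have hB : (0 : ℝ) ≤ (b n i : ℝ) - a n i := by
      have : (a n i : ℝ) ≤ b n i := by exact_mod_cast habn
      linarith
    have h3 := hn (pt (a n i) (b n i) s) (pt (a n i) (b n i) t) (pt_ge _ _ _) (pt_mono habn hst) (pt_le habn ht) (by
      refine (pt_diff habn hs hst).1.trans ?_
      have := mul_le_mul_of_nonneg_right htq hB
      have e1 : ((b n i : ℝ) - a n i) / q = 1 / q * ((b n i : ℝ) - a n i) := by ring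
      linarith)
    exact div_le_of_le_mul₀ (Real.sqrt_nonneg _) (by positivity) h3
  filter_upwards [hosc', h2 q (by omega) (min 1 (ε / 4)) (lt_min one_pos (by positivity))] with n h3 h4
  refine near_ball (q := q) (by omega) (gP_zero Q (A ω) S f a b L n) h3 (le_min zero_le_one (by positivity))
    (min_le_left _ _) h4 ?_
  have := min_le_right 1 (ε / 4)
  linarith

end Pool.Agent.Q106.UN
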