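import Pool.Agent.Q106.UN.All
import Pool.Agent.Q106.ST.Cor

/-!
# The sequences of windows with all elements of the ball as limits
-/

set_option autoImplicit false

namespace Pool.Agent.Q106.UN

open Finset MeasureTheory ProbabilityTheory Filter
open scoped Topology
open Pool.Agent.Q120.GM (IsModel level)
open Pool.Agent.Q106.UV (fN fex fser fw ft)
open Pool.Agent.Q106.FL (Energy Near pt FLaw)
open Pool.Agent.Q106.ST (Sys sh cD cP Wp kc hh flaw_mul flaw_near lg_top kc_top kc_ge hh_le hh_half hh_one)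

variable {σ : Type*} {Q r : ℕ} {S : Fin r → Finset σ} {f : σ → ℕ → ℕ} {m₁ : ℕ}

/-- Other norming factors. -/
theorem flaw_scale {D P : Fin r → ℕ → ℝ} {a b : ℕ → ℕ} {L L' : ℕ → ℝ}
    (h : FLaw (fun n i t => Wp D P (a n) (b n) (L n) i t)) (hL : ∀ᶠ n in atTop, 0 < L n) (hL' : ∀ᶠ n in atTop, 0 < L' n)
    (hP : ∀ i, ∀ᶠ n in atTop, 0 < P i (b n) - P i (a n)) (hr : Tendsto (fun n => L n / L' n) atTop (𝓝 1)) :
    FLaw (fun n i t => Wp D P (a n) (b n) (L' n) i t) := by
  have hρ := hr.sqrt
  rw [Real.sqrt_one] at hρ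
  have hfin := flaw_mul h (ρ := fun n _ => √(L n / L' n)) (fun _ => hρ)
  refine flaw_near hfin (fun ε hε => ?_)
  filter_upwards [hL, hL', eventually_all.2 hP] with n e2 e3 e4 i t _ _
  have key : Wp D P (a n) (b n) (L' n) i t = √(L n / L' n) * Wp D P (a n) (b n) (L n) i t := by
    unfold Wp
    have p1 := e4 i
    have s1 : √(2 * (P i (b n) - P i (a n)) * L' n) ≠ 0 := (Real.sqrt_pos.2 (by positivity)).ne'
    have s2 : √(2 * (P i (b n) - P i (a n)) * L n) ≠ 0 := (Real.sqrt_pos.2 (by positivity)).ne'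
    have e5 : √(L n / L' n) * √(2 * (P i (b n) - P i (a n)) * L' n) = √(2 * (P i (b n) - P i (a n)) * L n) := by
      rw [← Real.sqrt_mul (by positivity)]
      congr 1
      field_simp
    rw [mul_div_assoc', div_eq_div_iff s1 s2, ← e5]
    ring
  simp only
  rw [key, sub_self, abs_zero]
  exact hε.le

theorem llog_div : Tendsto (fun x : ℕ => Real.log (Real.log (x : ℝ)) / Real.log x) atTop (𝓝 0) :=
  (Real.isLittleO_log_id_atTop.tendsto_div_nhds_zero).comp lg_top

/-- The factor of the windows of length `x^θ`. -/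
theorem lam_theta {θ : ℝ} (h0 : 0 < θ) (h1 : θ < 1) :
    Tendsto (fun x : ℕ => (1 - θ) * Real.log x / lam x (hh θ x)) atTop (𝓝 1) := by
  have h2 : 0 < 1 - θ := by linarith
  have hl : Tendsto (fun x : ℕ => (1 - θ) * Real.log (x : ℝ)) atTop atTop := lg_top.const_mul_atTop h2
  have hup : Tendsto (fun x : ℕ => 1 + (Real.log 2 / ((1 - θ) * Real.log (x : ℝ)) +
      1 / (1 - θ) * (Real.log (Real.log (x : ℝ)) / Real.log x))) atTop (𝓝 (1 + (0 + 1 / (1 - θ) * 0))) :=
    tendsto_const_nhds.add ((hl.const_div_atTop _).add (llog_div.const_mul _))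
  rw [mul_zero, add_zero, add_zero] at hup
  have key : Tendsto (fun x : ℕ => lam x (hh θ x) / ((1 - θ) * Real.log x)) atTop (𝓝 1) := by
    refine tendsto_of_tendsto_of_tendsto_of_le_of_le' tendsto_const_nhds hup ?_ ?_
    · filter_upwards [hl.eventually_gt_atTop 0, eventually_ge_atTop 1, ST.llog_top.eventually_ge_atTop 0] with x g1 g2 g3
      have hx : (0 : ℝ) < x := by exact_mod_cast g2
      have hH : (0 : ℝ) < hh θ x := by exact_mod_cast hh_one h0.le g2
      rw [le_div_iff₀ g1, one_mul]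
      unfold lam
      have e1 : (1 - θ) * Real.log x ≤ Real.log ((x : ℝ) / hh θ x) := by
        rw [Real.log_div hx.ne' hH.ne']
        have e2 : Real.log (hh θ x) ≤ θ * Real.log x := by
          rw [← Real.log_rpow hx]
          exact Real.log_le_log hH hh_le
        linarith
      linarith
    · filter_upwards [hl.eventually_gt_atTop 0, eventually_ge_atTop 1] with x g1 g2
      have hx : (0 : ℝ) < x := by exact_mod_cast g2
      have hH : (0 : ℝ) < hh θ x := by exact_mod_cast hh_one h0.le g2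
      have hlx : 0 < Real.log (x : ℝ) := by
        by_contra hcon
        push Not at hcon
        nlinarith
      rw [div_le_iff₀ g1]
      unfold lam
      have e1 : Real.log ((x : ℝ) / hh θ x) ≤ (1 - θ) * Real.log x + Real.log 2 := by
        rw [Real.log_div hx.ne' hH.ne']
        have e2 : θ * Real.log x - Real.log 2 ≤ Real.log (hh θ x) := by
          rw [← Real.log_rpow hx, ← Real.log_div (by positivity) (by norm_num)]
          exact Real.log_le_log (by positivity) (hh_half h0.le g2)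
        linarith
      have e2 : (1 + (Real.log 2 / ((1 - θ) * Real.log (x : ℝ)) +
          1 / (1 - θ) * (Real.log (Real.log (x : ℝ)) / Real.log x))) * ((1 - θ) * Real.log x) =
          (1 - θ) * Real.log x + Real.log 2 + Real.log (Real.log x) := by
        field_simp
        ring
      rw [e2]
      linarith
  have := key.inv₀ one_ne_zero
  rw [inv_one] at this
  refine this.congr (fun x => ?_)
  rw [inv_div]

/-- **The windows of length `x^θ`.** -/
theorem flaw_theta {Ω : Type*} [MeasurableSpace Ω] {μ : Measure Ω} [IsProbabilityMeasure μ] {A : Ω → Set ℕ}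
    (h : Sys Q S f m₁) (hQ : 1 ≤ Q) (hA : IsModel μ (level Q) A) {θ : ℝ} (h0 : 0 < θ) (h1 : θ < 1) : ∀ᵐ ω ∂μ,
      FLaw (fun n i t => Wp (cD (A ω) Q S f m₁) (cP Q S f m₁) (kc (1 / (1 - θ)) n)
        (kc (1 / (1 - θ)) n + hh θ (kc (1 / (1 - θ)) n)) (lam (kc (1 / (1 - θ)) n) (hh θ (kc (1 / (1 - θ)) n))) i t) := by
  have h2 : 0 < 1 - θ := by linarith
  have hc : 1 < 1 / (1 - θ) := by
    rw [lt_div_iff₀ h2]
    linarith
  have hr := (lam_theta h0 h1).comp (kc_top hc.le)
  filter_upwards [h.increments hQ hA h0 h1] with ω hω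
  refine flaw_scale hω.2 ?_ ?_ (fun i => ?_) hr
  · filter_upwards [(lg_top.comp (kc_top hc.le)).eventually_gt_atTop 0] with n hn
    exact mul_pos h2 hn
  · filter_upwards [hr.eventually (lt_mem_nhds (show (0 : ℝ) < 1 by norm_num)),
      (lg_top.comp (kc_top hc.le)).eventually_gt_atTop 0] with n g1 g2
    simp only [Function.comp_apply] at g1 g2
    by_contra hcon
    push Not at hcon
    have : (1 - θ) * Real.log (kc (1 / (1 - θ)) n) / lam (kc (1 / (1 - θ)) n) (hh θ (kc (1 / (1 - θ)) n)) ≤ 0 :=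
      div_nonpos_of_nonneg_of_nonpos (mul_pos h2 g2).le hcon
    linarith
  · filter_upwards [(kc_top hc.le).eventually_ge_atTop (m₁ + 3)] with n hn
    exact (h.part i hn le_rfl (hh_one h0.le (show 1 ≤ kc (1 / (1 - θ)) n by omega)) le_rfl).1

/-- **The windows `[2^n, 2^(n + 1))`.** -/
theorem flaw_one {Ω : Type*} [MeasurableSpace Ω] {μ : Measure Ω} [IsProbabilityMeasure μ] {A : Ω → Set ℕ}
    (h : Sys Q S f m₁) (hQ : 1 ≤ Q) (hA : IsModel μ (level Q) A) : ∀ᵐ ω ∂μ,
      FLaw (fun n i t => Wp (cD (A ω) Q S f m₁) (cP Q S f m₁) (2 ^ n) (2 ^ n + 2 ^ n) (lam (2 ^ n) (2 ^ n)) i t) := by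
  filter_upwards [h.win hQ hA (K := 1) le_rfl 0] with ω hω
  have h1 : FLaw (fun n i t => Wp (cD (A ω) Q S f m₁) (cP Q S f m₁) (2 ^ n) (2 ^ n + 2 ^ n) (Real.log n) i t) := by
    refine flaw_near hω (fun ε hε => ?_)
    filter_upwards [ST.pow_top.eventually_ge_atTop m₁] with n hn i t _ _
    rw [ST.win_fP (A ω) (K := 1) (s := 0) (n := n) (by simpa using hn) i]
    unfold ST.W Wp
    have e1 : 1 * n + 0 = n := by ring
    have e2 : 1 * n + 1 + 0 = n + 1 := by ring
    have e3 : (2 : ℕ) ^ n + 2 ^ n = 2 ^ (n + 1) := by ring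
    rw [e1, e2, e3, sub_self, abs_zero]
    exact hε.le
  have hlam : ∀ n : ℕ, lam (2 ^ n) (2 ^ n) = Real.log (n * Real.log 2) := by
    intro n
    unfold lam
    rw [div_self (by positivity), Real.log_one, zero_add]
    push_cast
    rw [Real.log_pow]
  have h2 : Tendsto (fun n : ℕ => Real.log n / lam (2 ^ n) (2 ^ n)) atTop (𝓝 1) := by
    have h3 : Tendsto (fun n : ℕ => 1 + Real.log (Real.log 2) / Real.log (n : ℝ)) atTop (𝓝 (1 + 0)) :=
      tendsto_const_nhds.add (lg_top.const_div_atTop _)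
    rw [add_zero] at h3
    have h4 := h3.inv₀ one_ne_zero
    rw [inv_one] at h4
    refine h4.congr' ?_
    filter_upwards [lg_top.eventually_gt_atTop 0, eventually_ge_atTop 1] with n g1 g2
    have hn : (0 : ℝ) < n := by exact_mod_cast g2
    have hl2 : 0 < Real.log 2 := Real.log_pos (by norm_num)
    rw [hlam, Real.log_mul hn.ne' hl2.ne']
    have e1 : 1 + Real.log (Real.log 2) / Real.log (n : ℝ) = (Real.log n + Real.log (Real.log 2)) / Real.log n := by
      field_simp
    rw [e1, inv_div]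
  refine flaw_scale h1 (lg_top.eventually_gt_atTop 0) ?_ (fun i => ?_) h2
  · filter_upwards [h2.eventually (lt_mem_nhds (show (0 : ℝ) < 1 by norm_num)), lg_top.eventually_gt_atTop 0] with n g1 g2
    by_contra hcon
    push Not at hcon
    have : Real.log n / lam (2 ^ n) (2 ^ n) ≤ 0 := div_nonpos_of_nonneg_of_nonpos g2.le hcon
    linarith
  · filter_upwards [ST.pow_top.eventually_ge_atTop (m₁ + 3)] with n hn
    exact (h.part i hn le_rfl (show 1 ≤ 2 ^ n by omega) le_rfl).1

end Pool.Agent.Q106.UN
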