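import Mathlib

/-!
# The dyadic windows in a sequence
-/

set_option autoImplicit false

namespace Pool.Agent.Q106.UN

open Filter
open scoped Topology

/-- The pairs `(l, j)` of the windows `[l 2^j, (l + 3) 2^j)`. -/
def Ix (C j₀ : ℕ) : Type := {p : ℕ × ℕ // j₀ ≤ p.2 ∧ 1 ≤ p.1 ∧ p.1 ≤ 2 ^ (C * p.2)}

instance (C j₀ : ℕ) : Countable (Ix C j₀) := inferInstanceAs (Countable {p : ℕ × ℕ // j₀ ≤ p.2 ∧ 1 ≤ p.1 ∧ p.1 ≤ 2 ^ (C * p.2)})

instance (C j₀ : ℕ) : Infinite (Ix C j₀) :=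
  Infinite.of_injective (fun k : ℕ => (⟨(1, j₀ + k), by omega, le_rfl, Nat.one_le_two_pow⟩ : Ix C j₀)) (by
    intro k k' h
    have h1 := congrArg (fun x : Ix C j₀ => x.1.2) h
    simp only at h1
    omega)

theorem exists_enum (C j₀ : ℕ) : Nonempty (ℕ ≃ Ix C j₀) := by
  let _ : Encodable (Ix C j₀) := Encodable.ofCountable _
  let _ : Denumerable (Ix C j₀) := Denumerable.ofEncodableOfInfinite _
  exact ⟨(Denumerable.eqv (Ix C j₀)).symm⟩

theorem enum_tendsto {C j₀ : ℕ} (e : ℕ ≃ Ix C j₀) {G : ℕ × ℕ → ℕ} (hG : ∀ p : Ix C j₀, p.1.1 ≤ G p.1 ∧ p.1.2 ≤ G p.1) :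
    Tendsto (fun n => G (e n).1) atTop atTop := by
  refine tendsto_atTop.2 (fun B => ?_)
  rw [← Nat.cofinite_eq_atTop, eventually_cofinite]
  have h1 : {p : ℕ × ℕ | p.1 < B + 1 ∧ p.2 < B + 1}.Finite := by
    refine ((Set.finite_Iio (B + 1)).prod (Set.finite_Iio (B + 1))).subset ?_
    rintro p ⟨h1, h2⟩
    exact ⟨h1, h2⟩
  have h2 : Function.Injective (fun n => (e n).1) := Subtype.val_injective.comp e.injective
  refine (h1.preimage h2.injOn).subset (fun n hn => ?_)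
  simp only [Set.mem_setOf_eq, not_le] at hn
  have h3 := hG (e n)
  exact ⟨by simp only; omega, by simp only; omega⟩

theorem enum_sum {C j₀ : ℕ} (e : ℕ ≃ Ix C j₀) {x : ℝ} (hx : 1 < x) :
    Summable (fun n => Real.exp (-(Real.log (((e n).1.1 : ℝ) * ((e n).1.2 + 2)) * x))) := by
  have h1 : Summable (fun l : ℕ => ((l : ℝ) ^ x)⁻¹) := Real.summable_nat_rpow_inv.2 hx
  have h2 : Summable (fun j : ℕ => (((j : ℝ) + 2) ^ x)⁻¹) := by
    have := (summable_nat_add_iff 2).2 h1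
    simpa using this
  have h3 : Summable (fun p : ℕ × ℕ => ((p.1 : ℝ) ^ x)⁻¹ * (((p.2 : ℝ) + 2) ^ x)⁻¹) :=
    h1.mul_of_nonneg h2 (fun l => by positivity) (fun j => by positivity)
  have h4 : Function.Injective (fun n => (e n).1) := Subtype.val_injective.comp e.injective
  refine (h3.comp_injective h4).congr (fun n => ?_)
  have hl : (0 : ℝ) < (e n).1.1 := by exact_mod_cast (e n).2.2.1
  have hj : (0 : ℝ) < ((e n).1.2 : ℝ) + 2 := by positivity
  simp only [Function.comp_apply]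
  rw [Real.exp_neg, ← Real.rpow_def_of_pos (by positivity), Real.mul_rpow hl.le hj.le, mul_inv]

end Pool.Agent.Q106.UN
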