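import Pool.Agent.Q106.UN.Pol
import Pool.Agent.Q106.ST.Cub

/-!
# The system `X`, `2 X - 1`
-/

set_option autoImplicit false

namespace Pool.Agent.Q106.UN

open Finset MeasureTheory Filter Polynomial
open scoped Topology
open Pool.Agent.Q120.GM (IsModel level)
open Pool.Agent.Q106.UV (fN)
open Pool.Agent.Q106.GMM (val)
open Pool.Agent.Q106.ST (series PSys Apart count predicted rho series_primorial series_pos_of)

/-- The system `q`, `2 q - 1`. -/
noncomputable def pair : Finset ℤ[X] := {X, 2 * X - 1}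

theorem pair_ne : (X : ℤ[X]) ≠ 2 * X - 1 := by
  intro h
  have := congrArg (fun p : ℤ[X] => p.eval 0) h
  simp at this

theorem pair_card : pair.card = 2 := card_pair pair_ne

theorem eval_two (m : ℤ) : (2 * X - 1 : ℤ[X]).eval m = 2 * m - 1 := by simp

theorem pair_psys : PSys pair := by
  refine ⟨⟨X, mem_insert_self _ _⟩, fun f hf => ?_⟩
  unfold pair at hf
  rw [mem_insert, mem_singleton] at hf
  rcases hf with rfl | rfl
  · exact ⟨by rw [natDegree_X], by rw [leadingCoeff_X]; norm_num⟩
  · have h1 : (2 * X - 1 : ℤ[X]) = C 2 * X + C (-1) := by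
      simp only [map_ofNat, map_neg, map_one]
      ring
    rw [h1]
    refine ⟨?_, ?_⟩
    · rw [natDegree_linear (by norm_num)]
    · rw [leadingCoeff_linear (by norm_num)]
      norm_num

theorem pair_pos {Q : ℕ} (hQ : 1 ≤ Q) : 0 < series Q pair := by
  refine series_pos_of hQ (m := 1) (fun f hf => ?_)
  unfold pair at hf
  rw [mem_insert, mem_singleton] at hf
  rcases hf with rfl | rfl
  · simp only [eval_X, Nat.cast_one]
    exact isCoprime_one_left
  · rw [eval_two]
    norm_num
    exact isCoprime_one_left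

theorem pair_two : rho pair 2 = 1 := by
  classical
  unfold rho pair
  rw [card_eq_one]
  refine ⟨0, ?_⟩
  ext m
  simp only [mem_filter, mem_range, mem_singleton, mem_insert, exists_eq_or_imp, exists_eq_left, eval_X, eval_two]
  constructor
  · rintro ⟨h1, h2⟩
    interval_cases m
    · rfl
    · rcases h2 with h2 | h2 <;> norm_num at h2
  · rintro rfl
    exact ⟨by norm_num, Or.inl (by norm_num)⟩

theorem pair_odd {p : ℕ} (hp : p.Prime) (h2 : p ≠ 2) : rho pair p = 2 := by
  classical
  have hp2 : 2 < p := lt_of_le_of_ne hp.two_le (Ne.symm h2)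
  obtain ⟨k, hk⟩ := hp.odd_of_ne_two h2
  unfold rho pair
  rw [card_eq_two]
  refine ⟨0, k + 1, by omega, ?_⟩
  ext m
  simp only [mem_filter, mem_range, mem_singleton, mem_insert, exists_eq_or_imp, exists_eq_left, eval_X, eval_two]
  constructor
  · rintro ⟨h1, h3⟩
    rcases h3 with h3 | h3
    · left
      have h4 : p ∣ m := by exact_mod_cast h3
      exact Nat.eq_zero_of_dvd_of_lt h4 h1
    · right
      rcases Nat.eq_zero_or_pos m with h0 | h0
      · subst h0
        exfalso
        have h4 : (p : ℤ) ∣ 1 := by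
          have : (p : ℤ) ∣ -(2 * ((0 : ℕ) : ℤ) - 1) := h3.neg_right
          simpa using this
        have h5 : p ∣ 1 := by exact_mod_cast h4
        have := Nat.le_of_dvd one_pos h5
        omega
      · have h4 : p ∣ 2 * m - 1 := by
          have h5 : ((2 * m - 1 : ℕ) : ℤ) = 2 * (m : ℤ) - 1 := by
            rw [Nat.cast_sub (by omega)]
            push_cast
            ring
          rw [← h5] at h3
          exact_mod_cast h3
        obtain ⟨c, hc⟩ := h4
        have hc1 : c < 2 := by
          by_contra hcon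
          push Not at hcon
          have : p * 2 ≤ p * c := Nat.mul_le_mul_left p hcon
          omega
        interval_cases c <;> omega
  · rintro (rfl | rfl)
    · exact ⟨by omega, Or.inl (by simp)⟩
    · refine ⟨by omega, Or.inr ⟨1, ?_⟩⟩
      rw [hk]
      push_cast
      ring

/-- **The constants of the pairs `q`, `2 q - 1`.** -/
theorem series_pair {z : ℕ} (hz : 2 ≤ z) :
    series (primorial z) pair =
      2 * ∏ p ∈ (range (z + 1)).filter (fun p => p.Prime ∧ 2 < p), (1 - 1 / ((p : ℝ) - 1) ^ 2) := by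
  classical
  rw [series_primorial, pair_card]
  have e1 : (range (z + 1)).filter (fun p => p.Prime) =
      insert 2 ((range (z + 1)).filter (fun p => p.Prime ∧ 2 < p)) := by
    ext p
    simp only [mem_filter, mem_range, mem_insert]
    constructor
    · rintro ⟨h1, h2⟩
      rcases h2.two_le.eq_or_lt with h4 | h4
      · left; exact h4.symm
      · right; exact ⟨h1, h2, h4⟩
    · rintro (h | h)
      · subst h
        exact ⟨by omega, Nat.prime_two⟩
      · exact ⟨h.1, h.2.1⟩
  rw [e1, prod_insert (by simp), pair_two]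
  have h4 : ∏ p ∈ (range (z + 1)).filter (fun p => p.Prime ∧ 2 < p), (1 - (rho pair p : ℝ) / p) / (1 - 1 / (p : ℝ)) ^ 2 =
      ∏ p ∈ (range (z + 1)).filter (fun p => p.Prime ∧ 2 < p), (1 - 1 / ((p : ℝ) - 1) ^ 2) := by
    refine prod_congr rfl (fun p hp => ?_)
    rw [mem_filter] at hp
    obtain ⟨_, hpp, hp3⟩ := hp
    rw [pair_odd hpp (by omega)]
    have hp1 : (2 : ℝ) < p := by exact_mod_cast hp3
    have hp0 : (p : ℝ) ≠ 0 := by linarith
    have hp2 : (p : ℝ) - 1 ≠ 0 := by linarith
    have e2 : (1 : ℝ) - 1 / p = ((p : ℝ) - 1) / p := by field_simp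
    rw [e2]
    push_cast
    field_simp
    ring
  rw [h4]
  norm_num

/-- **Q1 in the models.** -/
theorem pair_exists {Ω : Type*} [MeasurableSpace Ω] {μ : Measure Ω} [IsProbabilityMeasure μ] {A : Ω → Set ℕ} {Q : ℕ}
    (hQ : 1 ≤ Q) (hA : IsModel μ (level Q) A) : ∀ᵐ ω ∂μ, ∀ᶠ N : ℕ in atTop, ∃ q : ℕ, N ≤ 2 * q - 1 ∧ 2 * q - 1 ≤ 2 * N ∧
      q ∈ A ω ∧ 2 * q - 1 ∈ A ω := by
  filter_upwards [one_uniform hQ hA pair_psys (pair_pos hQ)] with ω hω
  have hx : Tendsto (fun N : ℕ => (N + 2) / 2) atTop atTop :=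
    (Nat.tendsto_div_const_atTop (by norm_num)).comp (tendsto_add_atTop_nat 2)
  have h1 := hx.eventually (hω (1 / 2) (by norm_num) (1 / 2) (by norm_num))
  filter_upwards [h1, eventually_ge_atTop 9] with N h2 hN
  obtain ⟨x, hxd⟩ : ∃ x, x = (N + 2) / 2 := ⟨_, rfl⟩
  obtain ⟨H, hHd⟩ : ∃ H, H = (N + 1) / 2 := ⟨_, rfl⟩
  rw [← hxd] at h2
  have hH1 : (x : ℝ) ^ (1 / 2 : ℝ) ≤ H := by
    rw [← Real.sqrt_eq_rpow, Real.sqrt_le_left (Nat.cast_nonneg _)]
    have h3 : x ≤ H ^ 2 := by
      have : x ≤ H + 1 := by omega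
      have : 5 ≤ H := by omega
      nlinarith
    exact_mod_cast h3
  obtain ⟨k1, _, k3⟩ := h2 H hH1 (by omega)
  have h4 : 0 < count (A ω) pair (x + H) - count (A ω) pair x := by
    have := (abs_le.1 k3).1
    linarith
  have h5 : fN (A ω) pair val 0 (x + H) = fN (A ω) pair val 0 x + fN (A ω) pair val x (x + H) :=
    FL.fN_add (A ω) pair val (Nat.zero_le _) (Nat.le_add_right _ _)
  have hC : ∀ y, fN (A ω) pair val 0 y = count (A ω) pair y := by
    intro y
    unfold fN count
    simp only [zero_le, true_and]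
  rw [hC, hC] at h5
  have h6 : 0 < fN (A ω) pair val x (x + H) := by linarith
  unfold fN at h6
  have h7 : {m : ℕ | x ≤ m ∧ m < x + H ∧ ∀ s ∈ pair, val s m ∈ A ω}.Nonempty := by
    refine Set.nonempty_of_ncard_ne_zero (fun h => ?_)
    rw [h] at h6
    norm_num at h6
  obtain ⟨q, hq1, hq2, hq3⟩ := h7
  have v1 : val X q = q := by
    unfold GMM.val
    rw [eval_X]
    simp
  have v2 : val (2 * X - 1) q = 2 * q - 1 := by
    unfold GMM.val
    rw [eval_two]
    omega
  have w1 := hq3 X (mem_insert_self _ _)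
  have w2 := hq3 (2 * X - 1) (mem_insert_of_mem (mem_singleton_self _))
  rw [v1] at w1
  rw [v2] at w2
  exact ⟨q, by omega, by omega, w1, w2⟩

end Pool.Agent.Q106.UN
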