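import Pool.Agent.Q106.UN.Den

/-!
# The uniform law for systems of polynomials
-/

set_option autoImplicit false

namespace Pool.Agent.Q106.UN

open Finset MeasureTheory ProbabilityTheory Filter Polynomial
open scoped Topology
open Pool.Agent.Q120.GM (IsModel level)
open Pool.Agent.Q106.UV (fN fex fser fw ft)
open Pool.Agent.Q106.GMM (val)
open Pool.Agent.Q106.FL (Energy Near pt FLaw)
open Pool.Agent.Q106.ST (Sys sh cD cP Wp kc hh kc_top hh_half hh_one hh_le_self series PSys Apart count predicted exists_sys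
  energy_bound)

section

variable {σ : Type*} {Q r : ℕ} {S : Fin r → Finset σ} {f : σ → ℕ → ℕ} {m₁ : ℕ}

/-- The growth of the predicted numbers, uniformly. -/
theorem growth (h : Sys Q S f m₁) (i : Fin r) {δ : ℝ} (hδ : 0 < δ) (c : ℝ) : ∀ᶠ x : ℕ in atTop, ∀ H : ℕ,
    (x : ℝ) ^ δ ≤ H → H ≤ x → 0 < lam x H ∧ c * lam x H ≤ cP Q S f m₁ i (x + H) - cP Q S f m₁ i x := by
  have hS := h.sing i
  obtain ⟨c', hc'⟩ : ∃ c', c' = |c| + 1 := ⟨_, rfl⟩
  have hc0 : 0 < c' := by rw [hc']; positivity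
  obtain ⟨Y, hY⟩ := eventually_atTop.1 ((h.fw_slow i (show 0 < δ / 4 by positivity)).eventually_ge_atTop 1)
  have h2 : Tendsto (fun x : ℕ => Real.log x / (x : ℝ) ^ (δ / 2)) atTop (𝓝 0) :=
    (isLittleO_log_rpow_atTop (show 0 < δ / 2 by positivity)).tendsto_div_nhds_zero.comp
      (tendsto_natCast_atTop_atTop (R := ℝ))
  have h3 : 0 < fser Q (S i) (sh f m₁) / (2 * c') := by positivity
  have hpow : Tendsto (fun x : ℕ => (x : ℝ) ^ δ) atTop atTop := (tendsto_rpow_atTop hδ).comp tendsto_natCast_atTop_atTop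
  filter_upwards [h2.eventually (gt_mem_nhds h3), eventually_ge_atTop (m₁ + 3 + Y), ST.llog_top.eventually_ge_atTop 1,
    hpow.eventually_ge_atTop 1] with x g1 g2 g3 g4 H hH1 hH2
  have hx2 : (2 : ℝ) ≤ x := by exact_mod_cast (show 2 ≤ x by omega)
  have hx0 : (0 : ℝ) < x := by linarith
  have hH0 : (1 : ℝ) ≤ H := g4.trans hH1
  have hHx : (H : ℝ) ≤ x := by exact_mod_cast hH2
  have hlx : 0 < Real.log (x : ℝ) := Real.log_pos (by linarith)
  have hl1 : 0 ≤ Real.log ((x : ℝ) / H) := Real.log_nonneg (by rw [one_le_div (by linarith)]; exact hHx)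
  have hl2 : Real.log ((x : ℝ) / H) ≤ Real.log x := by
    refine Real.log_le_log (by positivity) ?_
    exact div_le_self hx0.le hH0
  have hl3 : Real.log (Real.log x) ≤ Real.log x := by
    have := Real.log_le_sub_one_of_pos hlx
    linarith
  have hlam0 : 0 < lam x H := by
    unfold lam
    linarith
  have hlam : lam x H ≤ 2 * Real.log x := by
    unfold lam
    linarith
  refine ⟨hlam0, ?_⟩
  obtain ⟨s1, _⟩ := h.cP_bd i (u := x) (v := x + H) (by omega) (by omega)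
  have e1 : ((x + H : ℕ) : ℝ) - x = H := by push_cast; ring
  rw [e1] at s1
  have e3 : ((x + H : ℕ) : ℝ) ≤ (x : ℝ) ^ (2 : ℝ) := by
    rw [Real.rpow_two]
    push_cast
    nlinarith
  have e4 : ((x + H : ℕ) : ℝ) ^ (δ / 4) ≤ (x : ℝ) ^ (δ / 2) := by
    refine (Real.rpow_le_rpow (Nat.cast_nonneg _) e3 (by positivity)).trans (le_of_eq ?_)
    rw [← Real.rpow_mul hx0.le]
    congr 1
    ring
  have w1 := h.fw_pos i (y := x + H) (by omega)
  have e5 : 1 ≤ fw (S i) f (x + H) * (x : ℝ) ^ (δ / 2) :=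
    (hY (x + H) (by omega)).trans (mul_le_mul_of_nonneg_left e4 w1.le)
  have e6 : (x : ℝ) ^ δ = (x : ℝ) ^ (δ / 2) * (x : ℝ) ^ (δ / 2) := by
    rw [← Real.rpow_add hx0, add_halves]
  have e7 : (0 : ℝ) < (x : ℝ) ^ (δ / 2) := by positivity
  have e8 : (x : ℝ) ^ (δ / 2) ≤ H * fw (S i) f (x + H) := by
    calc (x : ℝ) ^ (δ / 2) ≤ (x : ℝ) ^ (δ / 2) * (fw (S i) f (x + H) * (x : ℝ) ^ (δ / 2)) :=
          le_mul_of_one_le_right e7.le e5
      _ = (x : ℝ) ^ δ * fw (S i) f (x + H) := by rw [e6]; ring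
      _ ≤ H * fw (S i) f (x + H) := mul_le_mul_of_nonneg_right hH1 w1.le
  have e9 : fser Q (S i) (sh f m₁) * (x : ℝ) ^ (δ / 2) ≤ cP Q S f m₁ i (x + H) - cP Q S f m₁ i x :=
    (mul_le_mul_of_nonneg_left e8 hS.le).trans s1
  refine le_trans ?_ e9
  rw [div_lt_iff₀ e7] at g1
  calc c * lam x H ≤ c' * lam x H := by
        refine mul_le_mul_of_nonneg_right ?_ hlam0.le
        rw [hc']
        linarith [le_abs_self c]
    _ ≤ c' * (2 * Real.log x) := mul_le_mul_of_nonneg_left hlam hc0.le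
    _ = (2 * c') * Real.log x := by ring
    _ ≤ (2 * c') * (fser Q (S i) (sh f m₁) / (2 * c') * (x : ℝ) ^ (δ / 2)) :=
        mul_le_mul_of_nonneg_left g1.le (by positivity)
    _ = fser Q (S i) (sh f m₁) * (x : ℝ) ^ (δ / 2) := by field_simp

end

variable {Q r : ℕ} {F : Fin r → Finset ℤ[X]}

/-- The normed error in the part `[x, x + t H)` of the window `[x, x + H)`. -/
noncomputable def err (A : Set ℕ) (Q : ℕ) (F : Finset ℤ[X]) (x H : ℕ) (t : ℝ) : ℝ :=
  ((count A F (x + ⌊t * H⌋₊) - count A F x) - (predicted Q F (x + ⌊t * H⌋₊) - predicted Q F x)) /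
    √(2 * (predicted Q F (x + H) - predicted Q F x) * lam x H)

theorem wp_err {m₁ : ℕ} {A : Set ℕ} (hser : ∀ i, fser Q (F i) (sh val m₁) = series Q (F i)) (x H : ℕ) (i : Fin r) (t : ℝ) :
    Wp (cD A Q F val m₁) (cP Q F val m₁) x (x + H) (lam x H) i t = err A Q (F i) x H t := by
  have hP : ∀ i y, cP Q F val m₁ i y = predicted Q (F i) y := by
    intro i y
    unfold cP predicted fw
    rw [hser i]
  have hC : ∀ i y, fN A (F i) val 0 y = count A (F i) y := by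
    intro i y
    unfold fN count
    simp only [zero_le, true_and]
  have e1 : pt x (x + H) t = x + ⌊t * H⌋₊ := by
    unfold pt
    push_cast
    rw [add_sub_cancel_left]
  unfold Wp err cD
  rw [e1, hP, hP, hP, hC, hC]
  congr 1
  ring

/-- **The uniform law.** -/
theorem poly_uniform {Ω : Type*} [MeasurableSpace Ω] {μ : Measure Ω} [IsProbabilityMeasure μ] {A : Ω → Set ℕ}
    (hQ : 1 ≤ Q) (hA : IsModel μ (level Q) A) (h1 : ∀ i, PSys (F i)) (h2 : ∀ i, 0 < series Q (F i))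
    (h3 : ∀ i j, i ≠ j → Apart (F i) (F j)) : ∀ᵐ ω ∂μ, ∀ δ : ℝ, 0 < δ → ∀ ε > 0, ∀ᶠ x : ℕ in atTop, ∀ H : ℕ,
      (x : ℝ) ^ δ ≤ H → H ≤ x → ∃ φ e, e ≤ 1 ∧ Energy φ e ∧ Near ε (fun i t => err (A ω) Q (F i) x H t) φ := by
  obtain ⟨m₁, hS, hser⟩ := exists_sys hQ h1 h2 h3
  filter_upwards [uniform hS hQ hA] with ω hω
  simp only [wp_err hser] at hω
  exact hω

/-- **The sequences.** -/
theorem poly_dense {Ω : Type*} [MeasurableSpace Ω] {μ : Measure Ω} [IsProbabilityMeasure μ] {A : Ω → Set ℕ}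
    (hQ : 1 ≤ Q) (hA : IsModel μ (level Q) A) (h1 : ∀ i, PSys (F i)) (h2 : ∀ i, 0 < series Q (F i))
    (h3 : ∀ i j, i ≠ j → Apart (F i) (F j)) {θ : ℝ} (hθ0 : 0 < θ) (hθ1 : θ ≤ 1) : ∀ᵐ ω ∂μ, ∀ φ e, e ≤ 1 → Energy φ e →
      ∀ ε > 0, ∃ᶠ x : ℕ in atTop, Near ε (fun i t => err (A ω) Q (F i) x ⌊(x : ℝ) ^ θ⌋₊ t) φ := by
  obtain ⟨m₁, hS, hser⟩ := exists_sys hQ h1 h2 h3
  rcases hθ1.lt_or_eq with hθ | hθ
  · have hc : 1 ≤ 1 / (1 - θ) := by
      rw [le_div_iff₀ (by linarith)]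
      linarith
    filter_upwards [flaw_theta hS hQ hA hθ0 hθ] with ω hω φ e he hφ ε hε
    have h4 := hω.2.1 φ e he hφ ε hε
    simp only [wp_err hser] at h4
    exact (kc_top hc).frequently h4
  · filter_upwards [flaw_one hS hQ hA] with ω hω φ e he hφ ε hε
    have h4 := hω.2.1 φ e he hφ ε hε
    simp only [wp_err hser] at h4
    have h5 : ∃ᶠ x : ℕ in atTop, Near ε (fun i t => err (A ω) Q (F i) x x t) φ := ST.pow_top.frequently h4
    refine h5.mono (fun x hx => ?_)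
    rw [hθ, Real.rpow_one, Nat.floor_natCast]
    exact hx

variable {G : Finset ℤ[X]}

/-- **One system, all windows.** -/
theorem one_uniform {Ω : Type*} [MeasurableSpace Ω] {μ : Measure Ω} [IsProbabilityMeasure μ] {A : Ω → Set ℕ}
    (hQ : 1 ≤ Q) (hA : IsModel μ (level Q) A) (h1 : PSys G) (h2 : 0 < series Q G) : ∀ᵐ ω ∂μ, ∀ δ : ℝ, 0 < δ → ∀ ε > 0,
      ∀ᶠ x : ℕ in atTop, ∀ H : ℕ, (x : ℝ) ^ δ ≤ H → H ≤ x →
        0 < predicted Q G (x + H) - predicted Q G x ∧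
        |(count (A ω) G (x + H) - count (A ω) G x) - (predicted Q G (x + H) - predicted Q G x)| ≤
          (1 + ε) * √(2 * (predicted Q G (x + H) - predicted Q G x) * lam x H) ∧
        |(count (A ω) G (x + H) - count (A ω) G x) - (predicted Q G (x + H) - predicted Q G x)| ≤
          ε * (predicted Q G (x + H) - predicted Q G x) := by
  obtain ⟨m₁, hS, hser⟩ := exists_sys (r := 1) (F := fun _ => G) hQ (fun _ => h1) (fun _ => h2)
    (fun i j hij => absurd (Subsingleton.elim i j) hij)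
  have hP : ∀ y, cP Q (fun _ : Fin 1 => G) val m₁ 0 y = predicted Q G y := by
    intro y
    unfold cP predicted UV.fw
    rw [hser 0]
  filter_upwards [poly_uniform (r := 1) (F := fun _ => G) hQ hA (fun _ => h1) (fun _ => h2)
    (fun i j hij => absurd (Subsingleton.elim i j) hij)] with ω hω δ hδ ε hε
  have hg := growth hS 0 hδ (2 * ((1 + ε) / ε) ^ 2 + 1)
  simp only [hP] at hg
  filter_upwards [hω δ hδ ε hε, hg] with x g1 g2 H hH1 hH2
  obtain ⟨φ, e, he, hφ, hN⟩ := g1 H hH1 hH2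
  obtain ⟨k1, k2⟩ := g2 H hH1 hH2
  obtain ⟨p, hp⟩ : ∃ p, p = predicted Q G (x + H) - predicted Q G x := ⟨_, rfl⟩
  rw [← hp] at k2 ⊢
  have hp0 : 0 < p := lt_of_lt_of_le (by positivity) k2
  have a1 := hN 0 1 zero_le_one le_rfl
  simp only at a1
  have a2 := energy_bound hφ he 0 zero_le_one le_rfl
  rw [Real.sqrt_one] at a2
  have a3 := abs_add_le (err (A ω) Q G x H 1 - φ 0 1) (φ 0 1)
  rw [sub_add_cancel] at a3
  have a4 : |err (A ω) Q G x H 1| ≤ 1 + ε := by linarith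
  have hs : 0 < √(2 * p * lam x H) := Real.sqrt_pos.2 (by positivity)
  unfold err at a4
  rw [one_mul, Nat.floor_natCast, ← hp, abs_div, abs_of_pos hs, div_le_iff₀ hs] at a4
  refine ⟨hp0, a4, a4.trans ?_⟩
  have e1 : √(2 * p * lam x H) ≤ ε / (1 + ε) * p := by
    rw [Real.sqrt_le_left (by positivity)]
    have e2 : 2 * ((1 + ε) / ε) ^ 2 * lam x H ≤ p := by nlinarith
    have e3 : 2 * lam x H ≤ (ε / (1 + ε)) ^ 2 * p := by
      have e4 := mul_le_mul_of_nonneg_left e2 (show 0 ≤ (ε / (1 + ε)) ^ 2 by positivity)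
      have e5 : (ε / (1 + ε)) ^ 2 * (2 * ((1 + ε) / ε) ^ 2 * lam x H) = 2 * lam x H := by
        field_simp
      linarith
    calc 2 * p * lam x H = p * (2 * lam x H) := by ring
      _ ≤ p * ((ε / (1 + ε)) ^ 2 * p) := mul_le_mul_of_nonneg_left e3 hp0.le
      _ = (ε / (1 + ε) * p) ^ 2 := by ring
  calc (1 + ε) * √(2 * p * lam x H) ≤ (1 + ε) * (ε / (1 + ε) * p) := mul_le_mul_of_nonneg_left e1 (by linarith)
    _ = ε * p := by field_simp

/-- **One system, the exact order.** -/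
theorem one_order {Ω : Type*} [MeasurableSpace Ω] {μ : Measure Ω} [IsProbabilityMeasure μ] {A : Ω → Set ℕ}
    (hQ : 1 ≤ Q) (hA : IsModel μ (level Q) A) (h1 : PSys G) (h2 : 0 < series Q G) {θ : ℝ} (hθ0 : 0 < θ) (hθ1 : θ ≤ 1) :
    ∀ᵐ ω ∂μ, ∀ c : ℝ, MapClusterPt c atTop (fun x : ℕ => err (A ω) Q G x ⌊(x : ℝ) ^ θ⌋₊ 1) ↔ |c| ≤ 1 := by
  filter_upwards [one_uniform hQ hA h1 h2, poly_dense (r := 1) (F := fun _ => G) hQ hA (fun _ => h1) (fun _ => h2)
    (fun i j hij => absurd (Subsingleton.elim i j) hij) hθ0 hθ1] with ω hω hd c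
  have hlen : ∀ᶠ x : ℕ in atTop, (x : ℝ) ^ (θ / 2) ≤ hh θ x ∧ hh θ x ≤ x := by
    have l1 : Tendsto (fun x : ℕ => (x : ℝ) ^ (θ / 2)) atTop atTop :=
      (tendsto_rpow_atTop (by positivity)).comp tendsto_natCast_atTop_atTop
    filter_upwards [l1.eventually_ge_atTop 2, eventually_ge_atTop 1] with x g1 g2
    refine ⟨?_, hh_le_self hθ1 g2⟩
    refine le_trans ?_ (hh_half hθ0.le g2)
    have hx0 : (0 : ℝ) < x := by exact_mod_cast g2
    have e6 : (x : ℝ) ^ θ = (x : ℝ) ^ (θ / 2) * (x : ℝ) ^ (θ / 2) := by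
      rw [← Real.rpow_add hx0, add_halves]
    rw [e6]
    nlinarith
  have hup : ∀ ε > 0, ∀ᶠ x : ℕ in atTop, |err (A ω) Q G x ⌊(x : ℝ) ^ θ⌋₊ 1| ≤ 1 + ε := by
    intro ε hε
    filter_upwards [hω (θ / 2) (by positivity) ε hε, hlen, ST.llog_top.eventually_gt_atTop 0, eventually_ge_atTop 1]
      with x g1 g2 g3 g4
    obtain ⟨k1, k2, _⟩ := g1 (hh θ x) g2.1 g2.2
    have hl : 0 < lam x (hh θ x) := by
      unfold lam
      have hH0 : (0 : ℝ) < hh θ x := by exact_mod_cast hh_one hθ0.le g4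
      have : 0 ≤ Real.log ((x : ℝ) / hh θ x) := Real.log_nonneg (by
        rw [one_le_div hH0]
        exact_mod_cast g2.2)
      linarith
    have hs : 0 < √(2 * (predicted Q G (x + hh θ x) - predicted Q G x) * lam x (hh θ x)) :=
      Real.sqrt_pos.2 (by positivity)
    unfold hh at k2 hs
    unfold err
    rw [one_mul, Nat.floor_natCast, abs_div, abs_of_pos hs, div_le_iff₀ hs]
    exact k2
  obtain ⟨u, hu⟩ : ∃ u : ℕ → ℝ, u = fun x : ℕ => err (A ω) Q G x ⌊(x : ℝ) ^ θ⌋₊ 1 := ⟨_, rfl⟩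
  have hup' : ∀ ε > 0, ∀ᶠ x in atTop, |u x| ≤ 1 + ε := by rw [hu]; exact hup
  rw [← hu, mapClusterPt_iff_frequently]
  constructor
  · intro h
    refine le_of_forall_pos_le_add (fun ε hε => ?_)
    have h3 := (h (Metric.ball c (ε / 2)) (Metric.ball_mem_nhds c (by positivity))).and_eventually (hup' (ε / 2) (by positivity))
    obtain ⟨x, hx1, hx2⟩ := h3.exists
    rw [Metric.mem_ball, Real.dist_eq] at hx1
    have a3 := abs_sub_abs_le_abs_sub c (u x)
    rw [abs_sub_comm c (u x)] at a3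
    linarith
  · intro hc2 s hs
    obtain ⟨ε, hε, hεs⟩ := Metric.mem_nhds_iff.1 hs
    have hφ : Energy (fun (_ : Fin 1) (t : ℝ) => c * t) (c ^ 2) := by
      refine ⟨fun _ _ => c, fun i => ⟨intervalIntegrable_const, intervalIntegrable_const, fun t _ _ => ?_⟩, ?_⟩
      · rw [intervalIntegral.integral_const, smul_eq_mul, sub_zero, mul_comm]
      · simp
    have hc3 : c ^ 2 ≤ 1 := by
      rw [← sq_abs]
      nlinarith [abs_nonneg c]
    refine (hd _ _ hc3 hφ (ε / 2) (by positivity)).mono (fun x hx => hεs ?_)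
    have a1 := hx 0 1 zero_le_one le_rfl
    simp only [mul_one] at a1
    rw [Metric.mem_ball, Real.dist_eq, hu]
    simp only
    linarith

end Pool.Agent.Q106.UN
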