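import Pool.Agent.Q106.FL.Row

/-!
# Numbers in windows with arbitrary speeds: the upper bound
-/

set_option autoImplicit false

namespace Pool.Agent.Q106.UN

open Finset MeasureTheory ProbabilityTheory Filter Pool.Agent.Q120.GM Pool.Agent.Q106.UR Pool.Agent.Q106.MD
  Pool.Agent.Q106.CH Pool.Agent.Q106.UV Pool.Agent.Q106.FL
open scoped Topology

variable {σ : Type*}

/-- The data: windows with speeds. -/
structure UD (Q : ℕ) {r : ℕ} (S : Fin r → Finset σ) (f : Fin r → σ → ℕ → ℕ) (N : ℕ → ℕ) (a b : ℕ → Fin r → ℕ)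
    (M L : ℕ → ℝ) (δ K : ℝ) : Prop where
  ne : ∀ i, (S i).Nonempty
  mono : ∀ i, ∀ s ∈ S i, StrictMono (f i s)
  per : ∀ i, ∀ s ∈ S i, ∀ m, f i s (m + Q) ≡ f i s m [MOD Q]
  dist : ∀ i m, Set.InjOn (fun s => f i s m) (S i : Set σ)
  sing : ∀ i, 0 < fser Q (S i) (f i)
  win : ∀ n i, 3 ≤ a n i ∧ a n i ≤ b n i
  uniq : ∀ n i i' m m', a n i ≤ m → m < b n i → a n i' ≤ m' → m' < b n i' → ft (S i) (f i) m = ft (S i') (f i') m' → i = i'
  bd : ∀ᶠ n in atTop, ∀ i, ∀ s ∈ S i, ∀ m, m < b n i → f i s m ≤ N n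
  size : ∀ᶠ n in atTop, (N n : ℝ) ^ δ ≤ M n
  low : ∀ᶠ n in atTop, ∀ i, M n ≤ (b n i : ℝ) - a n i
  high : ∀ᶠ n in atTop, ∀ i, (b n i : ℝ) - a n i ≤ K * M n
  Kone : 1 ≤ K
  Nlim : Tendsto N atTop atTop
  Llim : Tendsto L atTop atTop
  Lle : ∀ᶠ n in atTop, L n ≤ Real.log ((2 * N n : ℕ) : ℝ)
  sum : ∀ x > 1, Summable (fun n => Real.exp (-(L n * x)))

/-- The places. -/
noncomputable def uJ {r : ℕ} (N : ℕ → ℕ) (a b : ℕ → Fin r → ℕ) (δ : ℝ) (n : ℕ) (i : Fin r) : Finset ℕ :=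
  (Ico (a n i) (b n i)).filter (fun m => cy δ (N n) ≤ m)

/-- The patterns. -/
def uT {r : ℕ} (S : Fin r → Finset σ) (f : Fin r → σ → ℕ → ℕ) (_ : ℕ) (i : Fin r) (m : ℕ) : Finset ℕ := ft (S i) (f i) m

/-- The predicted numbers. -/
noncomputable def uE {r : ℕ} (Q : ℕ) (S : Fin r → Finset σ) (f : Fin r → σ → ℕ → ℕ) (a b : ℕ → Fin r → ℕ) (n : ℕ)
    (i : Fin r) : ℝ := fex Q (S i) (f i) (a n i) (b n i)

/-- The lower bound of the predicted numbers. -/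
noncomputable def ue0 (Q R : ℕ) (N : ℕ → ℕ) (M : ℕ → ℝ) (n : ℕ) : ℝ :=
  M n / (Q * Real.log ((2 * N n : ℕ) : ℝ) ^ R)

section

variable {Q r : ℕ} {S : Fin r → Finset σ} {f : Fin r → σ → ℕ → ℕ} {N : ℕ → ℕ} {a b : ℕ → Fin r → ℕ} {M L : ℕ → ℝ}
  {δ K : ℝ}

theorem mem_uJ {n : ℕ} {i : Fin r} {m : ℕ} : m ∈ uJ N a b δ n i ↔ (a n i ≤ m ∧ m < b n i) ∧ cy δ (N n) ≤ m := by
  unfold uJ
  rw [mem_filter, mem_Ico]

theorem UD.M_pos (hG : UD Q S f N a b M L δ K) : ∀ᶠ n in atTop, 0 < M n := by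
  filter_upwards [hG.size, hG.Nlim.eventually_ge_atTop 1] with n h1 h2
  have : (0 : ℝ) < N n := by exact_mod_cast h2
  exact lt_of_lt_of_le (by positivity) h1

/-- The facts. -/
theorem UD.facts (hG : UD Q S f N a b M L δ K) (hQ : 1 ≤ Q) (hδ : 0 < δ) (hδ1 : δ ≤ 1) (R : ℕ) (c : ℝ) : ∀ᶠ n in atTop,
    3 ≤ N n ∧ qq Q ≤ Real.log (cy δ (N n)) ∧ 1 ≤ Real.log (cy δ (N n)) ∧ 1 ≤ Real.log ((2 * N n : ℕ) : ℝ) ∧ 0 < M n ∧
    c * Real.log ((2 * N n : ℕ) : ℝ) ≤ ue0 Q R N M n ∧ (c * (cy δ (N n) + 1)) ^ 2 ≤ ue0 Q R N M n ∧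
    c * (Real.log ((2 * N n : ℕ) : ℝ) * M n ^ 2) ≤ ue0 Q R N M n ^ 3 := by
  have hQ0 : (1 : ℝ) ≤ Q := by exact_mod_cast hQ
  have hf := hG.Nlim.eventually (nfacts hδ hδ1 (k := R) hQ (|c| + 1 + Q ^ 3 * (|c| + 1)))
  have hf2 := hG.Nlim.eventually (nfacts hδ hδ1 (k := R) hQ c)
  filter_upwards [hf, hf2, hG.size, hG.M_pos] with n h1 h2 h3 h4
  obtain ⟨f1, f2, f3, _, f5, _, f7, f8, f9⟩ := h1
  obtain ⟨_, _, _, _, _, _, _, _, k9⟩ := h2
  obtain ⟨ℓ, hℓ⟩ : ∃ ℓ, ℓ = Real.log ((2 * N n : ℕ) : ℝ) := ⟨_, rfl⟩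
  rw [← hℓ] at f5 f7 f8 f9 k9
  have hℓ1 : 1 ≤ ℓ := f3.trans f5
  have hℓR : 0 < (Q : ℝ) * ℓ ^ R := by positivity
  have hc0 := abs_nonneg c
  obtain ⟨G, hGd⟩ : ∃ G, G = |c| + 1 + (Q : ℝ) ^ 3 * (|c| + 1) := ⟨_, rfl⟩
  rw [← hGd] at f7
  have hQ3 : (1 : ℝ) ≤ (Q : ℝ) ^ 3 := one_le_pow₀ hQ0
  have hG1 : 1 ≤ G := by
    rw [hGd]
    nlinarith
  have hG2 : (Q : ℝ) ^ 3 * (|c| + 1) ≤ G ^ 2 := by
    have : (Q : ℝ) ^ 3 * (|c| + 1) ≤ G := by
      rw [hGd]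
      linarith
    nlinarith
  have hM1 : G ^ 2 * ℓ ^ (7 + 3 * R) ≤ M n := f7.trans h3
  have key : (Q : ℝ) ^ 3 * (|c| + 1) * ℓ ^ (7 + 3 * R) ≤ M n :=
    (mul_le_mul_of_nonneg_right hG2 (by positivity)).trans hM1
  refine ⟨f1, f2, f3, by rw [← hℓ]; exact hℓ1, h4, ?_, ?_, ?_⟩
  · unfold ue0
    rw [← hℓ, le_div_iff₀ hℓR]
    refine le_trans ?_ key
    have e1 : ℓ ^ (1 + R) ≤ ℓ ^ (7 + 3 * R) := pow_le_pow_right₀ hℓ1 (by omega)
    have e2 : (Q : ℝ) ≤ (Q : ℝ) ^ 3 := by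
      conv_lhs => rw [← pow_one (Q : ℝ)]
      exact pow_le_pow_right₀ hQ0 (by norm_num)
    calc c * ℓ * (Q * ℓ ^ R) = c * (Q * ℓ ^ (1 + R)) := by rw [pow_add, pow_one]; ring
      _ ≤ (|c| + 1) * ((Q : ℝ) ^ 3 * ℓ ^ (7 + 3 * R)) := by
          refine mul_le_mul ((le_abs_self c).trans (by linarith)) (mul_le_mul e2 e1 (by positivity) (by positivity))
            (by positivity) (by positivity)
      _ = _ := by ring
  · unfold ue0
    rw [← hℓ, le_div_iff₀ hℓR]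
    exact k9.trans h3
  · unfold ue0
    rw [← hℓ, div_pow, le_div_iff₀ (by positivity)]
    have e1 : ℓ * (ℓ ^ R) ^ 3 ≤ ℓ ^ (7 + 3 * R) := by
      rw [← pow_mul, ← pow_succ']
      exact pow_le_pow_right₀ hℓ1 (by omega)
    calc c * (ℓ * M n ^ 2) * (Q * ℓ ^ R) ^ 3 = c * ((Q : ℝ) ^ 3 * (ℓ * (ℓ ^ R) ^ 3)) * M n ^ 2 := by ring
      _ ≤ (|c| + 1) * ((Q : ℝ) ^ 3 * ℓ ^ (7 + 3 * R)) * M n ^ 2 := by
          refine mul_le_mul_of_nonneg_right ?_ (by positivity)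
          refine mul_le_mul ((le_abs_self c).trans (by linarith)) (mul_le_mul_of_nonneg_left e1 (by positivity))
            (by positivity) (by positivity)
      _ = ((Q : ℝ) ^ 3 * (|c| + 1) * ℓ ^ (7 + 3 * R)) * M n ^ 2 := by ring
      _ ≤ M n * M n ^ 2 := mul_le_mul_of_nonneg_right key (by positivity)
      _ = M n ^ 3 := by ring

theorem UD.le (hG : UD Q S f N a b M L δ K) (hQ : 1 ≤ Q) (hδ : 0 < δ) (hδ1 : δ ≤ 1) :
    ∀ᶠ n in atTop, ∀ i, ue0 Q (fR S) N M n ≤ uE Q S f a b n i := by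
  filter_upwards [hG.facts hQ hδ hδ1 (fR S) 0, hG.bd, hG.low] with n h1 h2 h3 i
  obtain ⟨f1, _, _, f4, f5, _⟩ := h1
  obtain ⟨w1, w2⟩ := hG.win n i
  have e1 := fex_ge hQ (hG.mono i) (hG.sing i) (h2 i) w2 w1 f1 (fR_le S i)
  refine le_trans ?_ e1
  unfold ue0
  have hQ0 : (0 : ℝ) < Q := by exact_mod_cast hQ
  have e2 : M n / (Q * Real.log ((2 * N n : ℕ) : ℝ) ^ fR S) =
      1 / (Q : ℝ) * (M n * (Real.log ((2 * N n : ℕ) : ℝ))⁻¹ ^ fR S) := by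
    have : Real.log ((2 * N n : ℕ) : ℝ) ≠ 0 := by linarith
    rw [inv_pow]
    field_simp
  rw [e2]
  refine mul_le_mul_of_nonneg_left (mul_le_mul_of_nonneg_right (h3 i) ?_) (by positivity)
  exact pow_nonneg (inv_nonneg.2 (by linarith)) _

theorem UD.card (hG : UD Q S f N a b M L δ K) : ∀ᶠ n in atTop,
    ((univ.sigma (uJ N a b δ n)).card : ℝ) ≤ r * K * M n := by
  filter_upwards [hG.high] with n h1
  rw [card_sigma]
  push_cast
  have h2 : ∀ i ∈ (univ : Finset (Fin r)), ((uJ N a b δ n i).card : ℝ) ≤ K * M n := by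
    intro i _
    have h3 : (uJ N a b δ n i).card ≤ b n i - a n i := by
      unfold uJ
      refine (card_filter_le _ _).trans ?_
      rw [Nat.card_Ico]
    have h4 : ((uJ N a b δ n i).card : ℝ) ≤ ((b n i - a n i : ℕ) : ℝ) := by exact_mod_cast h3
    rw [Nat.cast_sub (hG.win n i).2] at h4
    exact h4.trans (h1 i)
  refine (sum_le_sum h2).trans (le_of_eq ?_)
  simp
  ring

/-- The system. -/
theorem UD.psys (hG : UD Q S f N a b M L δ K) (hQ : 1 ≤ Q) (hδ : 0 < δ) (hδ1 : δ ≤ 1) :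
    PSys (level Q) atTop (uJ N a b δ) (uT S f) (uE Q S f a b) (ue0 Q (fR S) N M) L ((fR S : ℝ) ^ 2 + 1) := by
  have hQ0 : (0 : ℝ) < Q := by exact_mod_cast hQ
  have hlim : Tendsto (fun n => Real.log (cy δ (N n))) atTop atTop := (cy_lim hδ).comp hG.Nlim
  refine ⟨hG.Llim, ?_, ?_, ?_, ?_, ?_, hG.le hQ hδ hδ1, ?_, ?_, ?_⟩
  · intro n i j i' j' hj hj' h
    rw [mem_uJ] at hj hj'
    have h1 := hG.uniq n i i' j j' hj.1.1 hj.1.2 hj'.1.1 hj'.1.2 h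
    subst h1
    exact ⟨rfl, ft_inj (hG.ne i) (hG.mono i) h⟩
  · intro n i j _
    unfold uT ft
    exact (hG.ne i).image _
  · have := sq_nonneg (fR S : ℝ)
    linarith
  · intro n i j _
    unfold uT
    exact ft_deg S f (fun i s hs => (hG.mono i s hs).injective) (uJ N a b δ n) _ le_rfl ((ft_card _ _ _).trans (fR_le S i))
  · intro s hs
    filter_upwards [hlim.eventually_ge_atTop (qq Q / s), hlim.eventually_ge_atTop 1] with n h1 h2 i m hm b' hb'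
    have h6 := pos_of_log h2
    rw [mem_uJ] at hm
    have h3 : cy δ (N n) ≤ b' := by
      unfold uT at hb'
      obtain ⟨t, ht, e⟩ := mem_ft.1 hb'
      have := fge (hG.mono i) ht m
      omega
    refine (level_le (x := (cy δ (N n) : ℝ)) (by linarith) (by linarith) (by exact_mod_cast h3)).trans ?_
    rw [div_le_iff₀ hs] at h1
    rw [div_le_iff₀ (by linarith)]
    linarith
  · intro R
    filter_upwards [hG.facts hQ hδ hδ1 (fR S) |R|, hG.Lle, hG.Llim.eventually_ge_atTop 0] with n h1 h2 h3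
    obtain ⟨_, _, _, _, _, f6, _⟩ := h1
    refine le_trans ?_ f6
    calc R * L n ≤ |R| * L n := mul_le_mul_of_nonneg_right (le_abs_self R) h3
      _ ≤ _ := mul_le_mul_of_nonneg_left h2 (abs_nonneg R)
  · intro η hη
    obtain ⟨κ, hκ⟩ : ∃ κ, κ = qq Q ^ fR S * (2 * Q + 1) / η := ⟨_, rfl⟩
    filter_upwards [hG.le hQ hδ hδ1, hG.facts hQ hδ hδ1 (fR S) κ] with n h1 h2 i
    obtain ⟨_, f2, f3, _, _, _, f7, _⟩ := h2
    obtain ⟨w1, w2⟩ := hG.win n i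
    have e1 := fmean hQ (hG.mono i) (hG.per i) (y := cy δ (N n)) w2 w1 (fun m _ _ => hG.dist i m) f2 f3
    refine e1.trans ?_
    have e2 : qq Q ^ (S i).card ≤ qq Q ^ fR S := pow_le_pow_right₀ (one_le_qq hQ) (fR_le S i)
    have hq0 := qq_pos hQ
    have hy0 : (0 : ℝ) ≤ cy δ (N n) := Nat.cast_nonneg _
    have e3 : 2 * (Q : ℝ) + cy δ (N n) ≤ (2 * Q + 1) * (cy δ (N n) + 1) := by nlinarith
    have e4 : qq Q ^ (S i).card * (2 * Q + cy δ (N n)) ≤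
        qq Q ^ fR S * ((2 * Q + 1) * (cy δ (N n) + 1)) := mul_le_mul e2 e3 (by positivity) (by positivity)
    have e5 : qq Q ^ fR S * ((2 * Q + 1) * (cy δ (N n) + 1)) = η * (κ * (cy δ (N n) + 1)) := by
      rw [hκ]
      field_simp
    have e6 : κ * ((cy δ (N n) : ℝ) + 1) ≤ Real.sqrt (uE Q S f a b n i) :=
      Real.le_sqrt_of_sq_le (f7.trans (h1 i))
    exact e4.trans (e5.le.trans (mul_le_mul_of_nonneg_left e6 hη.le))
  · intro η hη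
    filter_upwards [hG.facts hQ hδ hδ1 (fR S) ((r * K) ^ 2 / η), hG.card, hG.Lle, hG.Llim.eventually_ge_atTop 0]
      with n h1 h2 h3 h4
    obtain ⟨_, _, _, f4, f5, _, _, f8⟩ := h1
    have e1 : (((univ.sigma (uJ N a b δ n)).card : ℕ) : ℝ) ^ 2 ≤ (r * K * M n) ^ 2 :=
      pow_le_pow_left₀ (Nat.cast_nonneg _) h2 2
    have e2 : L n * (((univ.sigma (uJ N a b δ n)).card : ℕ) : ℝ) ^ 2 ≤
        Real.log ((2 * N n : ℕ) : ℝ) * (r * K * M n) ^ 2 := mul_le_mul h3 e1 (by positivity) (by linarith)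
    refine e2.trans ?_
    have e3 := mul_le_mul_of_nonneg_left f8 hη.le
    refine le_trans (le_of_eq ?_) e3
    field_simp

variable {Ω : Type*} [MeasurableSpace Ω] {μ : Measure Ω} [IsProbabilityMeasure μ] {A : Ω → Set ℕ}

/-- The normed deviations. -/
noncomputable def uD (Q : ℕ) (A : Set ℕ) (S : Fin r → Finset σ) (f : Fin r → σ → ℕ → ℕ) (a b : ℕ → Fin r → ℕ)
    (L : ℕ → ℝ) (n : ℕ) (i : Fin r) : ℝ :=
  (fN A (S i) (f i) (a n i) (b n i) - fex Q (S i) (f i) (a n i) (b n i)) /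
    √(2 * fex Q (S i) (f i) (a n i) (b n i) * L n)

/-- **The upper bound.** -/
theorem UD.up (hG : UD Q S f N a b M L δ K) (hQ : 1 ≤ Q) (hδ : 0 < δ) (hδ1 : δ ≤ 1) (hA : IsModel μ (level Q) A) :
    ∀ᵐ ω ∂μ, ∀ ε > 0, ∀ᶠ n in atTop, ∑ i, uD Q (A ω) S f a b L n i ^ 2 ≤ 1 + ε := by
  have hS := hG.psys hQ hδ hδ1
  have hGau : Gau μ atTop (dev A (uJ N a b δ) (uT S f) (uE Q S f a b) L) L := gau_of hA hS
  filter_upwards [ball_up hGau hG.sum] with ω hω ε hε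
  obtain ⟨κ, hκ⟩ : ∃ κ, κ = min 1 ε / 8 := ⟨_, rfl⟩
  have hκ0 : 0 < κ := by
    rw [hκ]
    have := lt_min one_pos hε
    positivity
  have hκ1 : κ ≤ 1 / 8 := by
    rw [hκ]
    have := min_le_left 1 ε
    linarith
  have hκ2 : κ ≤ ε / 8 := by
    rw [hκ]
    have := min_le_right 1 ε
    linarith
  obtain ⟨τ, hτ⟩ : ∃ τ, τ = √(κ * ε / (4 * (r + 1))) := ⟨_, rfl⟩
  have hτ0 : 0 < τ := by rw [hτ]; exact Real.sqrt_pos.2 (by positivity)
  have hτ2 : τ ^ 2 * (4 * (r + 1)) = κ * ε := by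
    rw [hτ, Real.sq_sqrt (by positivity)]
    field_simp
  filter_upwards [hω κ hκ0, hS.le, hG.facts hQ hδ hδ1 (fR S) (1 / τ), hG.Llim.eventually_ge_atTop 1] with n h1 h2 h3 h4
  obtain ⟨_, _, _, _, _, _, f7, _⟩ := h3
  have hcl : ∀ i, |uD Q (A ω) S f a b L n i - dev A (uJ N a b δ) (uT S f) (uE Q S f a b) L n i ω| ≤ τ := by
    intro i
    have h5 := h2 i
    obtain ⟨E, hE⟩ : ∃ E, E = uE Q S f a b n i := ⟨_, rfl⟩
    rw [← hE] at h5
    have hy0 : (0 : ℝ) ≤ cy δ (N n) := Nat.cast_nonneg _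
    have hK : 0 < 1 / τ * ((cy δ (N n) : ℝ) + 1) := by positivity
    have hE1 : (1 / τ * ((cy δ (N n) : ℝ) + 1)) ^ 2 ≤ E := f7.trans h5
    have hE0 : 0 < E := lt_of_lt_of_le (by positivity) hE1
    have h6 : 1 / τ * ((cy δ (N n) : ℝ) + 1) < Real.sqrt (2 * E * L n) := by
      refine Real.lt_sqrt_of_sq_lt ?_
      nlinarith
    have h7 : 0 < Real.sqrt (2 * E * L n) := lt_trans hK h6
    have h8 := fN_close (y := cy δ (N n)) A (S i) (f i) (a := a n i) (b := b n i) ω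
    have h9 : uD Q (A ω) S f a b L n i - dev A (uJ N a b δ) (uT S f) (uE Q S f a b) L n i ω =
        (fN (A ω) (S i) (f i) (a n i) (b n i) - nm A ((Ico (a n i) (b n i)).filter (fun m => cy δ (N n) ≤ m))
          (fun m => ft (S i) (f i) m) ω) / Real.sqrt (2 * E * L n) := by
      rw [hE]
      unfold uD dev uJ uT uE
      rw [← sub_div]
      congr 1
      ring
    rw [h9, abs_div, abs_of_pos h7, div_le_iff₀ h7]
    refine h8.trans ?_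
    have h10 := mul_lt_mul_of_pos_left h6 hτ0
    have h11 : τ * (1 / τ * ((cy δ (N n) : ℝ) + 1)) = (cy δ (N n) : ℝ) + 1 := by field_simp
    rw [h11] at h10
    linarith
  have hsq : ∀ i ∈ (univ : Finset (Fin r)), uD Q (A ω) S f a b L n i ^ 2 ≤
      (1 + κ) * dev A (uJ N a b δ) (uT S f) (uE Q S f a b) L n i ω ^ 2 + (1 + 1 / κ) * τ ^ 2 := by
    intro i _
    obtain ⟨x, hx⟩ : ∃ x, x = dev A (uJ N a b δ) (uT S f) (uE Q S f a b) L n i ω := ⟨_, rfl⟩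
    obtain ⟨y, hy⟩ : ∃ y, y = uD Q (A ω) S f a b L n i - x := ⟨_, rfl⟩
    have e1 := hcl i
    rw [← hx] at e1 ⊢
    rw [← hy] at e1
    have e2 : uD Q (A ω) S f a b L n i = x + y := by rw [hy]; ring
    rw [e2]
    have e3 : y ^ 2 ≤ τ ^ 2 := by
      rw [← sq_abs y]
      exact pow_le_pow_left₀ (abs_nonneg _) e1 2
    have e4 : 2 * x * y ≤ κ * x ^ 2 + 1 / κ * y ^ 2 := by
      have e5 : 0 ≤ (κ * x - y) ^ 2 / κ := by positivity
      have e6 : (κ * x - y) ^ 2 / κ = κ * x ^ 2 + 1 / κ * y ^ 2 - 2 * x * y := by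
        field_simp
        ring
      linarith
    have e7 : 0 < 1 / κ := by positivity
    nlinarith
  refine (sum_le_sum hsq).trans ?_
  rw [sum_add_distrib, ← mul_sum, sum_const, card_univ, Fintype.card_fin, nsmul_eq_mul]
  have e1 : (1 + κ) * ∑ i, dev A (uJ N a b δ) (uT S f) (uE Q S f a b) L n i ω ^ 2 ≤ (1 + κ) * (1 + κ) :=
    mul_le_mul_of_nonneg_left h1 (by linarith)
  have e2 : (r : ℝ) * ((1 + 1 / κ) * τ ^ 2) ≤ ε / 2 := by
    have e3 : (1 + 1 / κ) ≤ 2 / κ := by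
      rw [show (2 : ℝ) / κ = 1 / κ + 1 / κ by ring]
      have : 1 ≤ 1 / κ := by
        rw [le_div_iff₀ hκ0]
        linarith
      linarith
    have e4 : (r : ℝ) * ((1 + 1 / κ) * τ ^ 2) ≤ (r + 1) * (2 / κ * τ ^ 2) := by
      have : 0 ≤ τ ^ 2 := by positivity
      have e5 : (1 + 1 / κ) * τ ^ 2 ≤ 2 / κ * τ ^ 2 := mul_le_mul_of_nonneg_right e3 this
      have e6 : 0 ≤ 2 / κ * τ ^ 2 := by positivity
      have e7 : (0 : ℝ) ≤ r := Nat.cast_nonneg _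
      nlinarith
    refine e4.trans (le_of_eq ?_)
    have e5 : ((r : ℝ) + 1) * (2 / κ * τ ^ 2) = (τ ^ 2 * (4 * (r + 1))) / (2 * κ) := by
      field_simp
      ring
    rw [e5, hτ2]
    field_simp
  have e3 : κ * κ ≤ κ / 8 := by nlinarith
  nlinarith

end

end Pool.Agent.Q106.UN
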