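import Pool.Agent.Q106.ST.Up

/-!
# Paths of parts of windows
-/

set_option autoImplicit false

namespace Pool.Agent.Q106.UN

open Finset MeasureTheory ProbabilityTheory Filter
open scoped Topology
open Pool.Agent.Q106.FL (Energy Near pt)
open Pool.Agent.Q106.ST (Wp energy_sub energy_bound sub_path)

variable {r : ℕ}

/-- The path of a part of a window is near the ball. -/
theorem near_sub {D P : Fin r → ℕ → ℝ} {a b x H : ℕ} {L L' κ ε : ℝ} (hax : a ≤ x) (hH : 1 ≤ H) (hxb : x + H ≤ b)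
    (hP : ∀ i, 0 < P i b - P i a) (hP' : ∀ i, 0 < P i (x + H) - P i x) (hL : 0 < L) (hL' : 0 < L') (hε : 0 < ε)
    (hκ : 0 < κ) (hlen : κ * ((b : ℝ) - a) ≤ H)
    (hρ : ∀ i, |√((H : ℝ) / ((b : ℝ) - a) * (P i b - P i a) / (P i (x + H) - P i x) * (L / L')) - 1| ≤
      ε / 2 / (1 + ε / 2))
    {φ : Fin r → ℝ → ℝ} {e : ℝ} (he : e ≤ 1) (hφ : Energy φ e)
    (hN : Near (ε * √κ / 4) (fun i t => Wp D P a b L i t) φ) :
    ∃ φ' e', e' ≤ 1 ∧ Energy φ' e' ∧ Near ε (fun i t => Wp D P x (x + H) L' i t) φ' := by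
  obtain ⟨ε', hε'⟩ : ∃ ε', ε' = ε * √κ / 4 := ⟨_, rfl⟩
  have hsκ : 0 < √κ := Real.sqrt_pos.2 hκ
  rw [← hε'] at hN
  obtain ⟨η, hη⟩ : ∃ η, η = ε / 2 / (1 + ε / 2) := ⟨_, rfl⟩
  have hη0 : 0 < η := by rw [hη]; positivity
  rw [← hη] at hρ
  have hba : (0 : ℝ) < (b : ℝ) - a := by
    have : (a : ℝ) < b := by exact_mod_cast (show a < b by omega)
    linarith
  have hH0 : (0 : ℝ) < H := by exact_mod_cast hH
  obtain ⟨u, hu⟩ : ∃ u, u = ((x : ℝ) - a) / ((b : ℝ) - a) := ⟨_, rfl⟩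
  obtain ⟨v, hv⟩ : ∃ v, v = u + (H : ℝ) / ((b : ℝ) - a) := ⟨_, rfl⟩
  have hvu : v - u = (H : ℝ) / ((b : ℝ) - a) := by rw [hv]; ring
  have hxa : (a : ℝ) ≤ x := by exact_mod_cast hax
  have hxb' : (x : ℝ) + H ≤ b := by exact_mod_cast hxb
  have hu0 : 0 ≤ u := by
    rw [hu]
    exact div_nonneg (by linarith) hba.le
  have hvu0 : 0 < v - u := by
    rw [hvu]
    positivity
  have hv1 : v ≤ 1 := by
    rw [hv, hu, ← add_div, div_le_one hba]
    linarith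
  have hκv : κ ≤ v - u := by
    rw [hvu, le_div_iff₀ hba]
    exact hlen
  have hs : √κ ≤ √(v - u) := Real.sqrt_le_sqrt hκv
  have hs0 : 0 < √(v - u) := lt_of_lt_of_le hsκ hs
  obtain ⟨e', he', hE⟩ := energy_sub hφ hu0 (show u < v by linarith) hv1
  refine ⟨_, e', he'.trans he, hE, fun i t ht0 ht1 => ?_⟩
  have key := sub_path (D := D) i hax hH hxb (hP i) (hP' i) hL hL' ht0 hu hvu
  simp only
  rw [key]
  have g3' := hρ i
  obtain ⟨ρ, hρ'⟩ : ∃ ρ, ρ = √((H : ℝ) / ((b : ℝ) - a) * (P i b - P i a) / (P i (x + H) - P i x) * (L / L')) := ⟨_, rfl⟩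
  rw [← hρ'] at g3' ⊢
  have hut1 : u + (v - u) * t ≤ 1 := by nlinarith
  have hut0 : 0 ≤ u + (v - u) * t := by positivity
  have n1 := hN i (u + (v - u) * t) hut0 hut1
  have n2 := hN i u hu0 (by linarith)
  have n3 := energy_bound hE (he'.trans he) i ht0 ht1
  have n4 : √t ≤ 1 := by
    rw [Real.sqrt_le_one]
    exact ht1
  simp only at n1 n2 n3
  obtain ⟨w1, hw1⟩ : ∃ w1, w1 = Wp D P a b L i (u + (v - u) * t) := ⟨_, rfl⟩
  obtain ⟨w2, hw2⟩ : ∃ w2, w2 = Wp D P a b L i u := ⟨_, rfl⟩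
  rw [← hw1, ← hw2]
  rw [← hw1] at n1
  rw [← hw2] at n2
  obtain ⟨y, hy⟩ : ∃ y, y = (φ i (u + (v - u) * t) - φ i u) / √(v - u) := ⟨_, rfl⟩
  rw [← hy] at n3 ⊢
  have n5 : |(w1 - w2) / √(v - u) - y| ≤ ε / 2 := by
    rw [hy, ← sub_div, abs_div, abs_of_pos hs0, div_le_iff₀ hs0]
    have e1 : w1 - w2 - (φ i (u + (v - u) * t) - φ i u) = (w1 - φ i (u + (v - u) * t)) - (w2 - φ i u) := by ring
    rw [e1]
    refine (abs_sub _ _).trans ?_
    have e2 : 2 * ε' ≤ ε / 2 * √(v - u) := by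
      rw [hε']
      nlinarith
    linarith
  have n6 : |(w1 - w2) / √(v - u)| ≤ 1 + ε / 2 := by
    have e1 : (w1 - w2) / √(v - u) = ((w1 - w2) / √(v - u) - y) + y := by ring
    rw [e1]
    refine (abs_add_le _ _).trans ?_
    linarith
  have n7 : ρ * ((w1 - w2) / √(v - u)) - y = (ρ - 1) * ((w1 - w2) / √(v - u)) + ((w1 - w2) / √(v - u) - y) := by ring
  rw [n7]
  refine (abs_add_le _ _).trans ?_
  rw [abs_mul]
  have n8 : |ρ - 1| * |(w1 - w2) / √(v - u)| ≤ η * (1 + ε / 2) :=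
    mul_le_mul g3' n6 (abs_nonneg _) hη0.le
  have n9 : η * (1 + ε / 2) = ε / 2 := by
    rw [hη]
    field_simp
  linarith

/-- Square roots near one. -/
theorem sqrt_near {z η : ℝ} (hη : 0 < η) (hη1 : η ≤ 1) (h1 : 1 - η ≤ z) (h2 : z ≤ 1 + η) : |√z - 1| ≤ η := by
  have hz : 0 ≤ z := by linarith
  rw [abs_le]
  constructor
  · have h3 : 1 - η ≤ √z := by
      refine Real.le_sqrt_of_sq_le ?_
      nlinarith
    linarith
  · have h3 : √z ≤ 1 + η := by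
      rw [Real.sqrt_le_left (by linarith)]
      nlinarith
    linarith

end Pool.Agent.Q106.UN
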