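import Pool.Agent.Q106.UN.Cell
import Pool.Agent.Q106.UN.Ix
import Pool.Agent.Q106.UN.Sub

/-!
# The windows `[l 2^j, (l + 3) 2^j)`
-/

set_option autoImplicit false

namespace Pool.Agent.Q106.UN

open Finset MeasureTheory ProbabilityTheory Filter
open scoped Topology
open Pool.Agent.Q120.GM (IsModel level)
open Pool.Agent.Q106.UV (fN fex fser fw ft)
open Pool.Agent.Q106.FL (Energy Near pt OD)
open Pool.Agent.Q106.ST (Sys sh cD cP Wp fN_shift fex_shift fw_sh)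

variable {σ : Type*} {Q r : ℕ} {S : Fin r → Finset σ} {f : σ → ℕ → ℕ} {m₁ : ℕ}

theorem gP_Wp (A : Set ℕ) {a b L} {n : ℕ} {a₀ b₀ : ℕ} (ha : ∀ i, a n i = a₀ - m₁) (hb : ∀ i, b n i = b₀ - m₁)
    (hn : m₁ ≤ a₀) (hab : a₀ ≤ b₀) (i : Fin r) (t : ℝ) :
    gP Q A S (fun _ => sh f m₁) a b L n i t = Wp (cD A Q S f m₁) (cP Q S f m₁) a₀ b₀ (L n) i t := by
  have ea : a₀ - m₁ + m₁ = a₀ := by omega
  have eb : b₀ - m₁ + m₁ = b₀ := by omega
  have ept : pt (a₀ - m₁) (b₀ - m₁) t + m₁ = pt a₀ b₀ t := by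
    conv_rhs => rw [← ea, ← eb]
    unfold pt
    have : (((b₀ - m₁ + m₁ : ℕ) : ℝ)) - ((a₀ - m₁ + m₁ : ℕ) : ℝ) = ((b₀ - m₁ : ℕ) : ℝ) - ((a₀ - m₁ : ℕ) : ℝ) := by
      push_cast
      ring
    rw [this]
    omega
  have e0 : a₀ - m₁ ≤ b₀ - m₁ := by omega
  unfold gP Wp
  rw [ha, hb, fN_shift, fex_shift Q S f m₁ i (FL.pt_ge _ _ _), fex_shift Q S f m₁ i e0, ea, eb, ept]
  congr 1
  have e1 := FL.fN_add A (S i) f (u := 0) (v := a₀) (w := pt a₀ b₀ t) (Nat.zero_le _) (FL.pt_ge _ _ _)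
  unfold cD
  rw [e1]
  ring

/-- **The paths of the windows `[l 2^j, (l + 3) 2^j)` are near the ball.** -/
theorem nearU {Ω : Type*} [MeasurableSpace Ω] {μ : Measure Ω} [IsProbabilityMeasure μ] {A : Ω → Set ℕ} (h : Sys Q S f m₁)
    (hQ : 1 ≤ Q) (hA : IsModel μ (level Q) A) (C : ℕ) : ∀ᵐ ω ∂μ, ∀ ε > 0, ∃ B : ℕ, ∀ l j : ℕ, 1 ≤ l → l ≤ 2 ^ (C * j) →
      B ≤ l * 2 ^ j → ∃ φ e, e ≤ 1 ∧ Energy φ e ∧ Near ε (fun i t => Wp (cD (A ω) Q S f m₁) (cP Q S f m₁) (l * 2 ^ j)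
        ((l + 3) * 2 ^ j) (Real.log ((l : ℝ) * (j + 2))) i t) φ := by
  obtain ⟨e, he1, he⟩ := h.expo
  obtain ⟨m₂, hm₂⟩ := eventually_atTop.1 he
  obtain ⟨j₀, hj₀⟩ : ∃ j₀, j₀ = m₁ + 3 + m₂ + 1 := ⟨_, rfl⟩
  obtain ⟨E⟩ := exists_enum C j₀
  obtain ⟨l, hl⟩ : ∃ l : ℕ → ℕ, l = fun n => (E n).1.1 := ⟨_, rfl⟩
  obtain ⟨j, hj⟩ : ∃ j : ℕ → ℕ, j = fun n => (E n).1.2 := ⟨_, rfl⟩
  have k1 : ∀ n, j₀ ≤ j n := fun n => by rw [hj]; exact (E n).2.1
  have k2 : ∀ n, 1 ≤ l n := fun n => by rw [hl]; exact (E n).2.2.1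
  have k3 : ∀ n, l n ≤ 2 ^ (C * j n) := fun n => by rw [hl, hj]; exact (E n).2.2.2
  have k4 : ∀ n, j₀ ≤ 2 ^ j n := fun n => (k1 n).trans (Nat.lt_two_pow_self).le
  obtain ⟨a₀, ha₀⟩ : ∃ a₀ : ℕ → ℕ, a₀ = fun n => l n * 2 ^ j n := ⟨_, rfl⟩
  obtain ⟨b₀, hb₀⟩ : ∃ b₀ : ℕ → ℕ, b₀ = fun n => (l n + 3) * 2 ^ j n := ⟨_, rfl⟩
  have a1 : ∀ n, j₀ ≤ a₀ n := fun n => by
    rw [ha₀]
    exact (k4 n).trans (Nat.le_mul_of_pos_left _ (k2 n))
  have ab : ∀ n, b₀ n = a₀ n + 3 * 2 ^ j n := fun n => by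
    rw [ha₀, hb₀]
    simp only
    ring
  have b4 : ∀ n, b₀ n ≤ 4 * a₀ n := fun n => by
    rw [ha₀, hb₀]
    simp only
    have := Nat.mul_le_mul_right (2 ^ j n) (show l n + 3 ≤ 4 * l n by have := k2 n; omega)
    linarith
  obtain ⟨a, hadef⟩ : ∃ a : ℕ → Fin r → ℕ, a = fun n _ => a₀ n - m₁ := ⟨_, rfl⟩
  obtain ⟨b, hbdef⟩ : ∃ b : ℕ → Fin r → ℕ, b = fun n _ => b₀ n - m₁ := ⟨_, rfl⟩
  have ea : ∀ n i, a n i = a₀ n - m₁ := fun n i => by rw [hadef]
  have eb : ∀ n i, b n i = b₀ n - m₁ := fun n i => by rw [hbdef]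
  obtain ⟨N, hN⟩ : ∃ N : ℕ → ℕ, N = fun n => b₀ n ^ e := ⟨_, rfl⟩
  obtain ⟨M, hM⟩ : ∃ M : ℕ → ℝ, M = fun n => 3 * (2 : ℝ) ^ j n := ⟨_, rfl⟩
  obtain ⟨L, hL⟩ : ∃ L : ℕ → ℝ, L = fun n => Real.log ((l n : ℝ) * (j n + 2)) := ⟨_, rfl⟩
  obtain ⟨δ, hδ⟩ : ∃ δ : ℝ, δ = 1 / ((C + 3) * e) := ⟨_, rfl⟩
  have he0 : (1 : ℝ) ≤ e := by exact_mod_cast he1
  have hC0 : (0 : ℝ) ≤ C := Nat.cast_nonneg _
  have hδ0 : 0 < δ := by rw [hδ]; positivity
  have hδ1 : δ ≤ 1 := by
    rw [hδ, div_le_one (by positivity)]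
    nlinarith
  have hwin : ∀ n i, 3 ≤ a n i ∧ a n i ≤ b n i := fun n i => by
    have := a1 n
    have := ab n
    rw [ea, eb]
    constructor <;> omega
  have hbd : ∀ n i, ∀ s ∈ S i, ∀ m, m < b n i → sh f m₁ s m ≤ N n := by
    intro n i s hs m hm
    have h3 := (h.mono i s hs).monotone hm.le
    have h4 : sh f m₁ s (b n i) = f s (b₀ n) := by
      unfold sh
      have := a1 n
      have := ab n
      rw [eb, show b₀ n - m₁ + m₁ = b₀ n by omega]
    rw [h4] at h3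
    rw [hN]
    have := a1 n
    have := ab n
    exact h3.trans (hm₂ (b₀ n) (by omega) i s hs)
  have hMeq : ∀ n i, (b n i : ℝ) - a n i = M n := by
    intro n i
    have h1 := a1 n
    have h2 := ab n
    rw [ea, eb, Nat.cast_sub (by omega), Nat.cast_sub (by omega), hM, h2]
    push_cast
    ring
  have hsize : ∀ n, (N n : ℝ) ^ δ ≤ M n := by
    intro n
    have h1 : b₀ n ≤ 2 ^ ((C + 3) * j n) := by
      have h2 : b₀ n ≤ 4 * (2 ^ (C * j n) * 2 ^ j n) := by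
        refine (b4 n).trans ?_
        rw [ha₀]
        exact Nat.mul_le_mul_left 4 (Nat.mul_le_mul_right _ (k3 n))
      have h3 : 4 * (2 ^ (C * j n) * 2 ^ j n) = 2 ^ (C * j n + j n + 2) := by
        rw [pow_add, pow_add]
        ring
      rw [h3] at h2
      refine h2.trans (Nat.pow_le_pow_right (by norm_num) ?_)
      have := k1 n
      have : 1 ≤ j n := by omega
      nlinarith
    have h2 : (N n : ℝ) ≤ ((2 : ℝ) ^ ((((C + 3) * j n : ℕ) : ℝ))) ^ (e : ℝ) := by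
      rw [hN]
      simp only
      rw [Real.rpow_natCast, Real.rpow_natCast]
      have : b₀ n ^ e ≤ (2 ^ ((C + 3) * j n)) ^ e := Nat.pow_le_pow_left h1 e
      exact_mod_cast this
    have h3 := Real.rpow_le_rpow (Nat.cast_nonneg _) h2 hδ0.le
    rw [← Real.rpow_mul (by positivity), ← Real.rpow_mul (by positivity)] at h3
    have h4 : ((((C + 3) * j n : ℕ) : ℝ)) * (e * δ) = (j n : ℝ) := by
      rw [hδ]
      push_cast
      field_simp
    rw [h4, Real.rpow_natCast] at h3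
    rw [hM]
    have : (0 : ℝ) < 2 ^ j n := by positivity
    linarith
  have htop : Tendsto a₀ atTop atTop := by
    rw [ha₀, hl, hj]
    refine enum_tendsto E (G := fun p => p.1 * 2 ^ p.2) (fun p => ⟨Nat.le_mul_of_pos_right _ (by positivity), ?_⟩)
    exact (Nat.lt_two_pow_self).le.trans (Nat.le_mul_of_pos_left _ p.2.2.1)
  have hab0 : ∀ n, a₀ n ≤ b₀ n := fun n => by have := ab n; omega
  have hNlim : Tendsto N atTop atTop := by
    refine tendsto_atTop_mono (fun n => ?_) htop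
    rw [hN]
    refine (hab0 n).trans ?_
    conv_lhs => rw [← pow_one (b₀ n)]
    exact Nat.pow_le_pow_right (by have := a1 n; have := hab0 n; omega) he1
  have hLlim : Tendsto L atTop atTop := by
    have h1 : Tendsto (fun n => l n * (j n + 2)) atTop atTop := by
      rw [hl, hj]
      refine enum_tendsto E (G := fun p => p.1 * (p.2 + 2)) (fun p => ⟨Nat.le_mul_of_pos_right _ (by omega), ?_⟩)
      exact (show p.1.2 ≤ p.1.2 + 2 by omega).trans (Nat.le_mul_of_pos_left _ p.2.2.1)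
    have h2 := ST.lg_top.comp h1
    rw [hL]
    refine h2.congr (fun n => ?_)
    simp only [Function.comp_apply]
    push_cast
    rfl
  have hy : ∀ n, (2 : ℝ) ≤ (l n : ℝ) * (j n + 2) := by
    intro n
    have h1 : (1 : ℝ) ≤ l n := by exact_mod_cast k2 n
    have h2 : (0 : ℝ) ≤ j n := Nat.cast_nonneg _
    nlinarith
  have hLle : ∀ n, L n ≤ Real.log ((2 * N n : ℕ) : ℝ) := by
    intro n
    rw [hL]
    refine Real.log_le_log (by linarith [hy n]) ?_
    have h1 : l n * (j n + 2) ≤ 2 * N n := by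
      have h2 : b₀ n ≤ N n := by
        rw [hN]
        conv_lhs => rw [← pow_one (b₀ n)]
        exact Nat.pow_le_pow_right (by have := a1 n; have := hab0 n; omega) he1
      have h3 : j n + 2 ≤ 2 * 2 ^ j n := by
        have : j n < 2 ^ j n := Nat.lt_two_pow_self
        have : 1 ≤ 2 ^ j n := Nat.one_le_two_pow
        omega
      calc l n * (j n + 2) ≤ l n * (2 * 2 ^ j n) := Nat.mul_le_mul_left _ h3
        _ = 2 * a₀ n := by rw [ha₀]; ring
        _ ≤ 2 * N n := Nat.mul_le_mul_left _ ((hab0 n).trans h2)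
    exact_mod_cast h1
  have hLge : ∀ n, Real.log ((2 * N n : ℕ) : ℝ) ≤ Real.exp ((2 + 3 * e) * L n) := by
    intro n
    obtain ⟨y, hy'⟩ : ∃ y : ℝ, y = (l n : ℝ) * (j n + 2) := ⟨_, rfl⟩
    have hy2 := hy n
    rw [← hy'] at hy2
    have h1 : (1 : ℝ) ≤ l n := by exact_mod_cast k2 n
    have h2 : (0 : ℝ) ≤ j n := Nat.cast_nonneg _
    have e1 : Real.log ((2 * N n : ℕ) : ℝ) = Real.log 2 + e * (Real.log ((l n : ℝ) + 3) + j n * Real.log 2) := by
      rw [hN, hb₀]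
      push_cast
      rw [Real.log_mul (by norm_num) (by positivity), Real.log_pow, Real.log_mul (by positivity) (by positivity),
        Real.log_pow]
    have e2 : Real.log 2 ≤ 1 := by
      have := Real.log_two_lt_d9
      linarith
    have e3 : Real.log ((l n : ℝ) + 3) ≤ (l n : ℝ) + 3 := by
      have := Real.log_le_sub_one_of_pos (show (0 : ℝ) < (l n : ℝ) + 3 by positivity)
      linarith
    have e4 : (j n : ℝ) * Real.log 2 ≤ j n := by nlinarith
    have e5 : (l n : ℝ) + 3 + j n ≤ 3 * y := by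
      rw [hy']
      nlinarith
    have e6 : Real.log ((2 * N n : ℕ) : ℝ) ≤ (1 + 3 * e) * y := by
      rw [e1]
      have : (e : ℝ) * (Real.log ((l n : ℝ) + 3) + j n * Real.log 2) ≤ e * (3 * y) :=
        mul_le_mul_of_nonneg_left (by linarith) (by linarith)
      nlinarith
    have e7 : Real.exp ((2 + 3 * e) * L n) = y ^ (2 + 3 * (e : ℝ)) := by
      rw [hL, Real.rpow_def_of_pos (by linarith), hy', mul_comm]
    have e8 : (1 + 3 * (e : ℝ)) ≤ y ^ (1 + 3 * (e : ℝ)) := by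
      have e9 : ((1 + 3 * e : ℕ) : ℝ) ≤ (2 : ℝ) ^ (1 + 3 * e) := by
        have : 1 + 3 * e < 2 ^ (1 + 3 * e) := Nat.lt_two_pow_self
        exact_mod_cast this.le
      have e10 : (2 : ℝ) ^ (1 + 3 * e) = (2 : ℝ) ^ (1 + 3 * (e : ℝ)) := by
        rw [← Real.rpow_natCast]
        push_cast
        rfl
      have e11 : (2 : ℝ) ^ (1 + 3 * (e : ℝ)) ≤ y ^ (1 + 3 * (e : ℝ)) :=
        Real.rpow_le_rpow (by norm_num) hy2 (by positivity)
      push_cast at e9
      linarith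
    rw [e7]
    have e9 : y ^ (2 + 3 * (e : ℝ)) = y ^ (1 + 3 * (e : ℝ)) * y := by
      rw [← Real.rpow_add_one (by linarith)]
      congr 1
      ring
    rw [e9]
    exact e6.trans (mul_le_mul_of_nonneg_right e8 (by linarith))
  have hsum : ∀ x > 1, Summable (fun n => Real.exp (-(L n * x))) := by
    intro x hx
    have := enum_sum E hx
    rw [hL, hl, hj]
    exact this
  have hG : UD Q S (fun _ => sh f m₁) N a b M L δ 1 :=
    { ne := h.ne
      mono := h.mono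
      per := h.per
      dist := h.inj
      sing := h.sing
      win := hwin
      uniq := by
        intro n i i' m m' _ _ _ _ h1
        by_contra hcon
        exact h.sep i i' hcon m m' h1
      bd := Eventually.of_forall hbd
      size := Eventually.of_forall hsize
      low := Eventually.of_forall (fun n i => (hMeq n i).ge)
      high := Eventually.of_forall (fun n i => by rw [hMeq, one_mul])
      Kone := le_rfl
      Nlim := hNlim
      Llim := hLlim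
      Lle := Eventually.of_forall hLle
      sum := hsum }
  have hOD : ∀ i, OD Q (S i) (fun _ => sh f m₁) N (fun n => a n i) (fun n => b n i) L δ (2 + 3 * e) := fun i =>
    { ne := h.ne i
      mono := fun _ => h.mono i
      per := fun _ => h.per i
      dist := fun _ m _ _ => h.inj i m
      bd := fun n => hbd n i
      sing := fun _ => h.sing i
      win := fun n => hwin n i
      size := fun n => (hsize n).trans (hMeq n i).ge
      lim := hNlim
      Llim := hLlim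
      sum := by
        refine (hsum 2 (by norm_num)).congr (fun n => ?_)
        congr 1
        ring
      Lle := Eventually.of_forall hLle
      Lge := Eventually.of_forall hLge }
  have hw : ∀ i, ∀ η > 0, ∀ᶠ n in atTop, fw (S i) (sh f m₁) (a n i) ≤ (1 + η) * fw (S i) (sh f m₁) (b n i) := by
    intro i η hη
    have h1 := h.flat htop (Eventually.of_forall hab0) ⟨4, Eventually.of_forall b4⟩ i
    filter_upwards [h1.eventually (gt_mem_nhds (show (1 : ℝ) < 1 + η by linarith))] with n h2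
    have h3 := a1 n
    have h4 := hab0 n
    rw [ea, eb, fw_sh (S i) (by omega), fw_sh (S i) (by omega)]
    have h5 := h.fw_pos i (y := b₀ n) (by omega)
    rw [div_lt_iff₀ h5] at h2
    exact h2.le
  filter_upwards [hG.near hQ hδ0 hδ1 hA hw hOD] with ω hω ε hε
  obtain ⟨n₀, hn₀⟩ := eventually_atTop.1 (hω ε hε)
  refine ⟨2 ^ ((C + 1) * j₀) + ∑ n ∈ range n₀, l n * 2 ^ j n + 1, fun l' j' hl' hlj hB => ?_⟩
  have hj' : j₀ ≤ j' := by
    by_contra hcon
    push Not at hcon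
    have h1 : l' * 2 ^ j' ≤ 2 ^ (C * j') * 2 ^ j' := Nat.mul_le_mul_right _ hlj
    rw [← pow_add] at h1
    have h2 : (2 : ℕ) ^ (C * j' + j') ≤ 2 ^ ((C + 1) * j₀) := Nat.pow_le_pow_right (by norm_num) (by nlinarith)
    omega
  obtain ⟨n, hn⟩ := E.surjective ⟨(l', j'), hj', hl', hlj⟩
  have e1 : l n = l' := by rw [hl]; simp only [hn]
  have e2 : j n = j' := by rw [hj]; simp only [hn]
  have hnn : n₀ ≤ n := by
    by_contra hcon
    push Not at hcon
    have h1 := single_le_sum (f := fun n => l n * 2 ^ j n) (fun _ _ => Nat.zero_le _) (mem_range.2 hcon)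
    simp only [e1, e2] at h1
    have h2 : 1 ≤ 2 ^ ((C + 1) * j₀) := Nat.one_le_two_pow
    omega
  obtain ⟨φ, e', he', hφ, hNr⟩ := hn₀ n hnn
  refine ⟨φ, e', he', hφ, fun i t ht0 ht1 => ?_⟩
  have h1 := hNr i t ht0 ht1
  have h2 := a1 n
  rw [gP_Wp (A ω) (ea n) (eb n) (by omega) (hab0 n) i t, ha₀, hb₀, hL] at h1
  simp only [e1, e2] at h1
  exact h1

end Pool.Agent.Q106.UN
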